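import Pool.Agent.H657R3.LbpDefs

set_option autoImplicit false

namespace Pool.Agent.H657R3

open Finset Relation

/-! ### characters -/

noncomputable def ch (a : ZMod 2) : ℝ := if a = 0 then 1 else -1

lemma ch_zero : ch 0 = 1 := by simp [ch]

lemma ch_one : ch 1 = -1 := by simp [ch]

lemma z2 (a : ZMod 2) : a = 0 ∨ a = 1 := by
  revert a; decide

lemma ch_add (a b : ZMod 2) : ch (a + b) = ch a * ch b := by
  have h11 : (1 : ZMod 2) + 1 = 0 := by decide
  rcases z2 a with rfl | rfl <;> rcases z2 b with rfl | rfl <;> simp [ch_zero, ch_one, h11]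

lemma ch_sq (a : ZMod 2) : ch a * ch a = 1 := by
  rcases z2 a with rfl | rfl <;> simp [ch_zero, ch_one]

lemma abs_ch (a : ZMod 2) : |ch a| = 1 := by
  rcases z2 a with rfl | rfl <;> simp [ch_zero, ch_one]

lemma add_self2 (a : ZMod 2) : a + a = 0 := by
  revert a; decide

section main
variable {ι : Type} [Fintype ι] [DecidableEq ι]

/-- dot product -/
def dt (c x : ι → ZMod 2) : ZMod 2 := ∑ i, c i * x i

omit [DecidableEq ι] in
lemma dt_add_right (c x y : ι → ZMod 2) : dt c (x + y) = dt c x + dt c y := by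
  simp [dt, mul_add, Finset.sum_add_distrib]

omit [DecidableEq ι] in
lemma dt_add_left (c e x : ι → ZMod 2) : dt (c + e) x = dt c x + dt e x := by
  simp [dt, add_mul, Finset.sum_add_distrib]

omit [DecidableEq ι] in
lemma dt_zero_left (x : ι → ZMod 2) : dt 0 x = 0 := by simp [dt]

/-! ### evaluation -/

lemma eval_lt (B : LBP ι) (x : ι → ZMod 2) {v : ℕ} (h : v < B.s) :
    B.eval x v = B.eval x (B.nxt v (dt (B.q v) x)) := by
  rw [LBP.eval]
  simp [h, dt]

lemma eval_ge (B : LBP ι) (x : ι → ZMod 2) {v : ℕ} (h : ¬ v < B.s) :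
    B.eval x v = B.out v := by
  rw [LBP.eval]
  simp [h]

def height (B : LBP ι) (v : ℕ) : ℕ :=
  if h : v < B.s then max (height B (B.nxt v 0)) (height B (B.nxt v 1)) + 1 else 0
termination_by B.s - v
decreasing_by
  · have := B.lt_nxt v h 0
    omega
  · have := B.lt_nxt v h 1
    omega

lemma height_lt (B : LBP ι) {v : ℕ} (h : v < B.s) :
    height B v = max (height B (B.nxt v 0)) (height B (B.nxt v 1)) + 1 := by
  rw [height]; simp [h]

lemma height_ge (B : LBP ι) {v : ℕ} (h : ¬ v < B.s) : height B v = 0 := by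
  rw [height]; simp [h]

open Classical in
lemma late_lt (B : LBP ι) (m : ℕ) {v : ℕ} (h : v < B.s) :
    B.late m v = max (B.late m (B.nxt v 0)) (B.late m (B.nxt v 1)) +
      (if B.q v ∈ B.Pre v ∧ Fintype.card ι ≤ Module.finrank (ZMod 2) (B.Pre v) + m
        then 1 else 0) := by
  rw [LBP.late]; simp [h]

lemma late_ge (B : LBP ι) (m : ℕ) {v : ℕ} (h : ¬ v < B.s) : B.late m v = 0 := by
  rw [LBP.late]; simp [h]

/-! ### spectral bound -/

lemma spec_one (B : LBP ι) (K : ℝ) : ∀ (n v : ℕ), B.s - v = n → ∀ (H : (ι → ZMod 2) → ℝ),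
    (∀ ψ : ι → ZMod 2, |∑ x, H x * ch (dt ψ x)| ≤ K) → ∀ ψ : ι → ZMod 2,
    |∑ x, H x * ch (dt ψ x) * ch (B.eval x v)| ≤ 2 ^ height B v * K := by
  intro n
  induction n using Nat.strong_induction_on with
  | _ n ih =>
    intro v hn H hH ψ
    have hK : 0 ≤ K := le_trans (abs_nonneg _) (hH 0)
    by_cases hv : v < B.s
    · have h0 := B.lt_nxt v hv 0
      have h1 := B.lt_nxt v hv 1
      have e0 : B.s - B.nxt v 0 < n := by omega
      have e1 : B.s - B.nxt v 1 < n := by omega
      have key : ∑ x, H x * ch (dt ψ x) * ch (B.eval x v) =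
          (1 / 2) * (∑ x, H x * ch (dt ψ x) * ch (B.eval x (B.nxt v 0)))
          + (1 / 2) * (∑ x, H x * ch (dt (ψ + B.q v) x) * ch (B.eval x (B.nxt v 0)))
          + (1 / 2) * (∑ x, H x * ch (dt ψ x) * ch (B.eval x (B.nxt v 1)))
          - (1 / 2) * (∑ x, H x * ch (dt (ψ + B.q v) x) * ch (B.eval x (B.nxt v 1))) := by
        rw [Finset.mul_sum, Finset.mul_sum, Finset.mul_sum, Finset.mul_sum,
          ← Finset.sum_add_distrib, ← Finset.sum_add_distrib, ← Finset.sum_sub_distrib]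
        apply Finset.sum_congr rfl
        intro x _
        rw [eval_lt B x hv, dt_add_left, ch_add]
        rcases z2 (dt (B.q v) x) with h | h
        · rw [h, ch_zero]; ring
        · rw [h, ch_one]; ring
      have a1 := ih _ e0 (B.nxt v 0) rfl H hH ψ
      have a2 := ih _ e0 (B.nxt v 0) rfl H hH (ψ + B.q v)
      have a3 := ih _ e1 (B.nxt v 1) rfl H hH ψ
      have a4 := ih _ e1 (B.nxt v 1) rfl H hH (ψ + B.q v)
      rw [height_lt B hv, pow_succ]
      have m0 : (2 : ℝ) ^ height B (B.nxt v 0) * K ≤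
          2 ^ (max (height B (B.nxt v 0)) (height B (B.nxt v 1))) * K :=
        mul_le_mul_of_nonneg_right (pow_le_pow_right₀ (by norm_num) (le_max_left _ _)) hK
      have m1 : (2 : ℝ) ^ height B (B.nxt v 1) * K ≤
          2 ^ (max (height B (B.nxt v 0)) (height B (B.nxt v 1))) * K :=
        mul_le_mul_of_nonneg_right (pow_le_pow_right₀ (by norm_num) (le_max_right _ _)) hK
      rw [key]
      rw [abs_le] at a1 a2 a3 a4 ⊢
      constructor
      · nlinarith [a1.1, a1.2, a2.1, a2.2, a3.1, a3.2, a4.1, a4.2]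
      · nlinarith [a1.1, a1.2, a2.1, a2.2, a3.1, a3.2, a4.1, a4.2]
    · rw [height_ge B hv, pow_zero, one_mul]
      have : ∑ x, H x * ch (dt ψ x) * ch (B.eval x v) =
          (∑ x, H x * ch (dt ψ x)) * ch (B.out v) := by
        rw [Finset.sum_mul]
        apply Finset.sum_congr rfl
        intro x _
        rw [eval_ge B x hv]
      rw [this, abs_mul, abs_ch, mul_one]
      exact hH ψ

/-- shifting by `d` -/
lemma sum_shift (d : ι → ZMod 2) (f : (ι → ZMod 2) → ℝ) : ∑ x, f (x + d) = ∑ x, f x :=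
  Fintype.sum_equiv (Equiv.addRight d) _ _ (fun x => by simp)

lemma add_add_self (x d : ι → ZMod 2) : x + d + d = x := by
  funext i
  have := add_self2 (d i)
  simp only [Pi.add_apply]
  rw [add_assoc, this, add_zero]

lemma spec_two (B : LBP ι) (K : ℝ) (v : ℕ) (d : ι → ZMod 2) (H : (ι → ZMod 2) → ℝ)
    (hH : ∀ ψ : ι → ZMod 2, |∑ x, H x * ch (dt ψ x)| ≤ K) :
    |∑ x, H x * ch (B.eval x v) * ch (B.eval (x + d) v)| ≤ 4 ^ height B v * K := by
  have h1 : ∀ ψ : ι → ZMod 2, |∑ y, H (y + d) * ch (dt ψ y)| ≤ K := by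
    intro ψ
    rw [← sum_shift d (fun y => H (y + d) * ch (dt ψ y))]
    have : ∀ x : ι → ZMod 2, H (x + d + d) * ch (dt ψ (x + d)) =
        H x * ch (dt ψ x) * ch (dt ψ d) := by
      intro x
      rw [add_add_self, dt_add_right, ch_add]; ring
    rw [Finset.sum_congr rfl (fun x _ => this x), ← Finset.sum_mul, abs_mul, abs_ch, mul_one]
    exact hH ψ
  have h2 : ∀ ψ : ι → ZMod 2, |∑ x, (H x * ch (B.eval (x + d) v)) * ch (dt ψ x)|
      ≤ 2 ^ height B v * K := by
    intro ψ
    rw [← sum_shift d (fun x => (H x * ch (B.eval (x + d) v)) * ch (dt ψ x))]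
    have : ∀ x : ι → ZMod 2, (H (x + d) * ch (B.eval (x + d + d) v)) * ch (dt ψ (x + d)) =
        H (x + d) * ch (dt ψ x) * ch (B.eval x v) * ch (dt ψ d) := by
      intro x
      rw [add_add_self, dt_add_right, ch_add]; ring
    rw [Finset.sum_congr rfl (fun x _ => this x), ← Finset.sum_mul, abs_mul, abs_ch, mul_one]
    exact spec_one B K _ v rfl (fun y => H (y + d)) h1 ψ
  have h3 := spec_one B _ _ v rfl (fun x => H x * ch (B.eval (x + d) v)) h2 0
  have e : ∑ x, H x * ch (B.eval x v) * ch (B.eval (x + d) v) =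
      ∑ x, (H x * ch (B.eval (x + d) v)) * ch (dt 0 x) * ch (B.eval x v) := by
    apply Finset.sum_congr rfl
    intro x _
    rw [dt_zero_left, ch_zero]; ring
  rw [e]
  refine h3.trans (le_of_eq ?_)
  rw [← mul_assoc, ← mul_pow]; norm_num

end main

end Pool.Agent.H657R3
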