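import Pool.Agent.H657R3.Lbp

set_option autoImplicit false

namespace Pool.Agent.H657R3

open Finset Relation

section sm
variable {ι : Type} [Fintype ι] [DecidableEq ι]

/-- Second moment: `Y` is invariant under the finite set `D`, which is closed under addition and
contains `0`. -/
lemma second_moment (D Y : Finset (ι → ZMod 2)) (h0 : (0 : ι → ZMod 2) ∈ D)
    (hD : ∀ d ∈ D, ∀ e ∈ D, d + e ∈ D) (hY : ∀ x ∈ Y, ∀ d ∈ D, x + d ∈ Y)
    (G : (ι → ZMod 2) → ℝ) :
    (∑ x ∈ Y, G x) ^ 2 * D.card ≤ Y.card * ∑ d ∈ D, ∑ x, G x * G (x + d) := by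
  have hDpos : (0 : ℝ) < D.card := by
    exact_mod_cast Finset.card_pos.mpr ⟨0, h0⟩
  -- the average over the shifts
  have e1 : (D.card : ℝ) * ∑ x ∈ Y, G x = ∑ x ∈ Y, ∑ d ∈ D, G (x + d) := by
    rw [Finset.sum_comm]
    have : ∀ d ∈ D, ∑ x ∈ Y, G (x + d) = ∑ x ∈ Y, G x := by
      intro d hd
      refine Finset.sum_bij' (fun x _ => x + d) (fun x _ => x + d) ?_ ?_ ?_ ?_ ?_
      · intro x hx; exact hY x hx d hd
      · intro x hx; exact hY x hx d hd
      · intro x _; exact add_add_self x d
      · intro x _; exact add_add_self x d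
      · intro x _; rfl
    rw [Finset.sum_congr rfl this, Finset.sum_const, nsmul_eq_mul]
  have e2 : (∑ x ∈ Y, ∑ d ∈ D, G (x + d)) ^ 2 ≤
      Y.card * ∑ x ∈ Y, (∑ d ∈ D, G (x + d)) ^ 2 := sq_sum_le_card_mul_sum_sq
  have e3 : ∑ x ∈ Y, (∑ d ∈ D, G (x + d)) ^ 2 ≤ ∑ x, (∑ d ∈ D, G (x + d)) ^ 2 :=
    Finset.sum_le_sum_of_subset_of_nonneg (Finset.subset_univ _) (fun _ _ _ => sq_nonneg _)
  have e4 : ∑ x, (∑ d ∈ D, G (x + d)) ^ 2 = D.card * ∑ d ∈ D, ∑ x, G x * G (x + d) := by
    have : ∀ x, (∑ d ∈ D, G (x + d)) ^ 2 = ∑ d ∈ D, ∑ e ∈ D, G (x + d) * G (x + e) := by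
      intro x
      rw [sq, Finset.sum_mul_sum]
    rw [Finset.sum_congr rfl (fun x _ => this x), Finset.sum_comm]
    have h2 : ∀ d ∈ D, ∑ x, ∑ e ∈ D, G (x + d) * G (x + e) =
        ∑ e ∈ D, ∑ x, G x * G (x + e) := by
      intro d hd
      rw [Finset.sum_comm]
      have h3 : ∀ e ∈ D, ∑ x, G (x + d) * G (x + e) = ∑ x, G x * G (x + (e + d)) := by
        intro e _
        rw [← sum_shift d (fun x => G (x + d) * G (x + e))]
        apply Finset.sum_congr rfl
        intro x _
        rw [add_add_self, add_assoc, add_comm d e]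
      rw [Finset.sum_congr rfl h3]
      refine Finset.sum_bij' (fun e _ => e + d) (fun e _ => e + d) ?_ ?_ ?_ ?_ ?_
      · intro e he; exact hD e he d hd
      · intro e he; exact hD e he d hd
      · intro e _; exact add_add_self e d
      · intro e _; exact add_add_self e d
      · intro e _; rfl
    rw [Finset.sum_congr rfl h2, Finset.sum_const, nsmul_eq_mul]
  have e5 : (D.card : ℝ) ^ 2 * (∑ x ∈ Y, G x) ^ 2 ≤
      Y.card * (D.card * ∑ d ∈ D, ∑ x, G x * G (x + d)) := by
    rw [← mul_pow, e1, ← e4]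
    exact e2.trans (mul_le_mul_of_nonneg_left e3 (by positivity))
  have e6 : (D.card : ℝ) * ((∑ x ∈ Y, G x) ^ 2 * D.card) ≤
      D.card * (Y.card * ∑ d ∈ D, ∑ x, G x * G (x + d)) := by
    nlinarith [e5]
  exact le_of_mul_le_mul_left e6 hDpos

/-- The vectors orthogonal to all elements of `W`. -/
noncomputable def ann (W : Submodule (ZMod 2) (ι → ZMod 2)) : Finset (ι → ZMod 2) :=
  by classical exact Finset.univ.filter (fun d => ∀ c ∈ W, dt c d = 0)

lemma mem_ann (W : Submodule (ZMod 2) (ι → ZMod 2)) (d : ι → ZMod 2) :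
    d ∈ ann W ↔ ∀ c ∈ W, dt c d = 0 := by
  classical
  simp [ann]

lemma zero_mem_ann (W : Submodule (ZMod 2) (ι → ZMod 2)) : (0 : ι → ZMod 2) ∈ ann W := by
  rw [mem_ann]; intro c _; simp [dt]

lemma add_mem_ann (W : Submodule (ZMod 2) (ι → ZMod 2)) :
    ∀ d ∈ ann W, ∀ e ∈ ann W, d + e ∈ ann W := by
  intro d hd e he
  rw [mem_ann] at *
  intro c hc
  rw [dt_add_right, hd c hc, he c hc, add_zero]

/-- number of vectors orthogonal to `W` -/
lemma card_ann (W : Submodule (ZMod 2) (ι → ZMod 2)) (m : ℕ)
    (hW : Module.finrank (ZMod 2) W + m ≤ Fintype.card ι) : 2 ^ m ≤ (ann W).card := by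
  classical
  set r := Module.finrank (ZMod 2) W with hr
  let b := Module.finBasis (ZMod 2) W
  let L : (ι → ZMod 2) →ₗ[ZMod 2] (Fin r → ZMod 2) :=
    LinearMap.pi (fun i => 
      { toFun := fun x => dt (b i : ι → ZMod 2) x
        map_add' := fun x y => dt_add_right _ _ _
        map_smul' := fun a x => by
          simp [dt, Finset.mul_sum]
          apply Finset.sum_congr rfl
          intro j _; ring })
  have hL : ∀ x i, L x i = dt (b i : ι → ZMod 2) x := fun x i => rfl
  have hker : ∀ x, x ∈ LinearMap.ker L → x ∈ ann W := by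
    intro x hx
    rw [LinearMap.mem_ker] at hx
    rw [mem_ann]
    intro c hc
    have hc' := b.sum_repr ⟨c, hc⟩
    have hc2 : c = ∑ i, b.repr ⟨c, hc⟩ i • (b i : ι → ZMod 2) := by
      have h := congrArg (Submodule.subtype W) hc'
      rw [map_sum] at h
      simp only [map_smul, Submodule.subtype_apply] at h
      exact h.symm
    let M : (ι → ZMod 2) →ₗ[ZMod 2] ZMod 2 :=
      { toFun := fun c => dt c x
        map_add' := fun c e => dt_add_left _ _ _
        map_smul' := fun a c => by
          simp [dt, Finset.mul_sum]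
          apply Finset.sum_congr rfl
          intro j _; ring }
    have hM : ∀ c, M c = dt c x := fun c => rfl
    rw [← hM, hc2, map_sum]
    apply Finset.sum_eq_zero
    intro i _
    rw [map_smul, hM, ← hL, hx]
    simp
  have hdim : m ≤ Module.finrank (ZMod 2) (LinearMap.ker L) := by
    have h1 := LinearMap.finrank_range_add_finrank_ker L
    have h2 : Module.finrank (ZMod 2) (LinearMap.range L) ≤ r := by
      have := Submodule.finrank_le (LinearMap.range L)
      simpa using this
    have h3 : Module.finrank (ZMod 2) (ι → ZMod 2) = Fintype.card ι := Module.finrank_pi _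
    omega
  have hcard : Fintype.card (LinearMap.ker L) = 2 ^ Module.finrank (ZMod 2) (LinearMap.ker L) := by
    have := Module.card_eq_pow_finrank (K := ZMod 2) (V := LinearMap.ker L)
    simpa using this
  have hle : Fintype.card (LinearMap.ker L) ≤ (ann W).card := by
    rw [← Fintype.card_coe (ann W)]
    refine Fintype.card_le_of_injective (fun x => ⟨x.1, hker x.1 x.2⟩) ?_
    intro x y hxy
    simp only [Subtype.mk.injEq] at hxy
    exact Subtype.ext hxy
  calc 2 ^ m ≤ 2 ^ Module.finrank (ZMod 2) (LinearMap.ker L) :=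
        Nat.pow_le_pow_right (by norm_num) hdim
    _ = _ := hcard.symm
    _ ≤ _ := hle

end sm

section cut
variable {ι : Type} [Fintype ι] [DecidableEq ι]

/-- a node is short if it is a sink or fewer than ... dimensions are unread -/
def Short (B : LBP ι) (m : ℕ) (v : ℕ) : Prop :=
  B.s ≤ v ∨ Fintype.card ι ≤ Module.finrank (ZMod 2) (B.Pre v) + m

open Classical in
noncomputable def cut (B : LBP ι) (m : ℕ) (x : ι → ZMod 2) (v : ℕ) : ℕ :=
  if h : v < B.s then
    if Short B m (B.nxt v (dt (B.q v) x)) then v else cut B m x (B.nxt v (dt (B.q v) x))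
  else v
termination_by B.s - v
decreasing_by
  have := B.lt_nxt v h (dt (B.q v) x)
  omega

def Rc (B : LBP ι) (v : ℕ) : Prop := ReflTransGen B.Edge 0 v

lemma edge_nxt (B : LBP ι) {v : ℕ} (h : v < B.s) (b : ZMod 2) : B.Edge v (B.nxt v b) :=
  ⟨h, b, rfl⟩

lemma q_mem_pre (B : LBP ι) {u v : ℕ} (hu : Rc B u) (huv : TransGen B.Edge u v) :
    B.q u ∈ B.Pre v := Submodule.subset_span ⟨u, hu, huv, rfl⟩

lemma pre_mono (B : LBP ι) {u v : ℕ} (h : B.Edge u v) : B.Pre u ≤ B.Pre v := by
  apply Submodule.span_mono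
  rintro c ⟨w, hw, hwu, rfl⟩
  exact ⟨w, hw, hwu.tail h, rfl⟩

lemma not_short_lt (B : LBP ι) (m : ℕ) {v : ℕ} (h : ¬ Short B m v) : v < B.s := by
  unfold Short at h; push Not at h; exact h.1

/-- height bound at short nodes -/
lemma height_le (B : LBP ι) (m : ℕ) : ∀ (n v : ℕ), B.s - v = n → Rc B v →
    Fintype.card ι ≤ Module.finrank (ZMod 2) (B.Pre v) + m →
    height B v + Module.finrank (ZMod 2) (B.Pre v) ≤ Fintype.card ι + B.late m v := by
  classical
  intro n
  induction n using Nat.strong_induction_on with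
  | _ n ih =>
    intro v hn hR hd
    have htot : Module.finrank (ZMod 2) (B.Pre v) ≤ Fintype.card ι := by
      have := Submodule.finrank_le (B.Pre v)
      rwa [Module.finrank_pi] at this
    by_cases hv : v < B.s
    · rw [height_lt B hv, late_lt B m hv]
      have hb : ∀ b : ZMod 2, height B (B.nxt v b) + 1 + Module.finrank (ZMod 2) (B.Pre v) ≤
          Fintype.card ι + B.late m (B.nxt v b) +
          (if B.q v ∈ B.Pre v ∧ Fintype.card ι ≤ Module.finrank (ZMod 2) (B.Pre v) + m
            then 1 else 0) := by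
        intro b
        have hlt := B.lt_nxt v hv b
        have hR' : Rc B (B.nxt v b) := ReflTransGen.tail hR (edge_nxt B hv b)
        have hmono := pre_mono B (edge_nxt B hv b)
        have hfin : Module.finrank (ZMod 2) (B.Pre v) ≤
            Module.finrank (ZMod 2) (B.Pre (B.nxt v b)) := Submodule.finrank_mono hmono
        have hI := ih (B.s - B.nxt v b) (by omega) (B.nxt v b) rfl hR' (by omega)
        by_cases hq : B.q v ∈ B.Pre v
        · rw [if_pos ⟨hq, hd⟩]; omega
        · rw [if_neg (fun h => hq h.1)]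
          have hlt2 : B.Pre v < B.Pre (B.nxt v b) := by
            refine lt_of_le_of_ne hmono ?_
            intro h
            apply hq
            rw [h]
            exact q_mem_pre B hR (TransGen.single (edge_nxt B hv b))
          have := Submodule.finrank_lt_finrank_of_lt hlt2
          omega
      have h0 := hb 0
      have h1 := hb 1
      have hm1 := le_max_left (B.late m (B.nxt v 0)) (B.late m (B.nxt v 1))
      have hm2 := le_max_right (B.late m (B.nxt v 0)) (B.late m (B.nxt v 1))
      rcases le_total (height B (B.nxt v 0)) (height B (B.nxt v 1)) with h | h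
      · rw [max_eq_right h]; omega
      · rw [max_eq_left h]; omega
    · rw [height_ge B hv]; omega

lemma late_nxt_le (B : LBP ι) (m : ℕ) {v : ℕ} (hv : v < B.s) (b : ZMod 2) :
    B.late m (B.nxt v b) ≤ B.late m v := by
  rw [late_lt B m hv]
  rcases z2 b with rfl | rfl
  · exact le_trans (le_max_left _ _) (Nat.le_add_right _ _)
  · exact le_trans (le_max_right _ _) (Nat.le_add_right _ _)

/-- everything about the cut -/
lemma cut_spec (B : LBP ι) (m : ℕ) (x : ι → ZMod 2) : ∀ (n v : ℕ), B.s - v = n → Rc B v →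
    ¬ Short B m v →
    ¬ Short B m (cut B m x v) ∧ Rc B (cut B m x v) ∧
    Short B m (B.nxt (cut B m x v) (dt (B.q (cut B m x v)) x)) ∧
    B.eval x v = B.eval x (B.nxt (cut B m x v) (dt (B.q (cut B m x v)) x)) ∧
    B.late m (B.nxt (cut B m x v) (dt (B.q (cut B m x v)) x)) ≤ B.late m v ∧
    ReflTransGen B.Edge v (cut B m x v) ∧
    (∀ d ∈ ann (B.Pre (cut B m x v) ⊔ Submodule.span (ZMod 2) {B.q (cut B m x v)}),
      cut B m (x + d) v = cut B m x v) := by
  intro n
  induction n using Nat.strong_induction_on with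
  | _ n ih =>
    intro v hn hR hns
    have hv := not_short_lt B m hns
    set w := B.nxt v (dt (B.q v) x) with hw
    have hlt : v < w := B.lt_nxt v hv _
    have hE : B.Edge v w := edge_nxt B hv _
    by_cases hs : Short B m w
    · have hc : cut B m x v = v := by
        rw [cut]; simp [hv, ← hw, hs]
      rw [hc]
      refine ⟨hns, hR, hs, eval_lt B x hv, late_nxt_le B m hv _, ReflTransGen.refl, ?_⟩
      intro d hd
      rw [mem_ann] at hd
      have hq : dt (B.q v) d = 0 := hd _ (Submodule.mem_sup_right (Submodule.subset_span rfl))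
      rw [cut]
      simp [hv, dt_add_right, hq, ← hw, hs]
    · have hc : cut B m x v = cut B m x w := by
        rw [cut]; simp [hv, ← hw, hs]
      have hI := ih (B.s - w) (by omega) w rfl (ReflTransGen.tail hR hE) hs
      obtain ⟨i1, i2, i3, i4, i5, i6, i7⟩ := hI
      rw [hc]
      refine ⟨i1, i2, i3, ?_, ?_, ReflTransGen.head hE i6, ?_⟩
      · rw [eval_lt B x hv, ← hw]; exact i4
      · exact i5.trans (late_nxt_le B m hv _)
      · intro d hd
        have hq : dt (B.q v) d = 0 := by
          rw [mem_ann] at hd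
          apply hd
          apply Submodule.mem_sup_left
          exact q_mem_pre B hR (TransGen.head' hE i6)
        have : cut B m (x + d) v = cut B m (x + d) w := by
          rw [cut]; simp [hv, dt_add_right, hq, ← hw, hs]
        rw [this]
        exact i7 d hd

end cut

end Pool.Agent.H657R3
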