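import Pool.Agent.H657R3.Lbp2

set_option autoImplicit false

namespace Pool.Agent.H657R3

open Finset Relation

/-- trilinear form -/
def cub {h : ℕ} (N : ℕ) (u v w : Fin h → ZMod 2) : ZMod 2 :=
  ∑ i : Fin h, ∑ j : Fin h, ∑ k : Fin h, if (i : ℕ) + j + k + 1 = N then u i * v j * w k else 0

def blk {g l : ℕ} (x : Vars g l → ZMod 2) (r : Fin 3) : Fin (2 * g) → ZMod 2 :=
  fun i => x (Sum.inr (r, i))

lemma target_eq {g l : ℕ} (p : (Fin l → ZMod 2) → ZMod 2) (x : Vars g l → ZMod 2) :
    target p x = p (fun i => x (Sum.inl i)) + cub (3 * g) (blk x 0) (blk x 1) (blk x 2) := rfl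

lemma cub_swap12 {h N : ℕ} (u v w : Fin h → ZMod 2) : cub N u v w = cub N v u w := by
  unfold cub
  rw [Finset.sum_comm]
  refine Finset.sum_congr rfl (fun i _ => Finset.sum_congr rfl (fun j _ =>
    Finset.sum_congr rfl (fun k _ => ?_)))
  by_cases h : (i : ℕ) + j + k + 1 = N
  · rw [if_pos h, if_pos (by omega), mul_comm (u j) (v i)]
  · rw [if_neg h, if_neg (by omega)]

lemma cub_swap23 {h N : ℕ} (u v w : Fin h → ZMod 2) : cub N u v w = cub N u w v := by
  unfold cub
  refine Finset.sum_congr rfl (fun i _ => ?_)
  rw [Finset.sum_comm]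
  refine Finset.sum_congr rfl (fun j _ => Finset.sum_congr rfl (fun k _ => ?_))
  by_cases h : (i : ℕ) + j + k + 1 = N
  · rw [if_pos h, if_pos (by omega)]; ring
  · rw [if_neg h, if_neg (by omega)]

/-- coefficient of the third argument -/
def lin {h : ℕ} (N : ℕ) (u v : Fin h → ZMod 2) (k : Fin h) : ZMod 2 :=
  ∑ i : Fin h, ∑ j : Fin h, if (i : ℕ) + j + k + 1 = N then u i * v j else 0

lemma cub_lin {h N : ℕ} (u v w : Fin h → ZMod 2) : cub N u v w = dt (lin N u v) w := by
  unfold cub dt lin
  have : ∀ k : Fin h, (∑ i : Fin h, ∑ j : Fin h, if (i : ℕ) + j + k + 1 = N then u i * v j else 0)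
      * w k = ∑ i : Fin h, ∑ j : Fin h, if (i : ℕ) + j + k + 1 = N then u i * v j * w k else 0 := by
    intro k
    rw [Finset.sum_mul]
    refine Finset.sum_congr rfl (fun i _ => ?_)
    rw [Finset.sum_mul]
    refine Finset.sum_congr rfl (fun j _ => ?_)
    split_ifs <;> simp
  rw [Finset.sum_congr rfl (fun k _ => this k)]
  have h1 : ∀ i : Fin h, (∑ j : Fin h, ∑ k : Fin h, if (i : ℕ) + j + k + 1 = N then u i * v j * w k else 0)
      = ∑ k : Fin h, ∑ j : Fin h, if (i : ℕ) + j + k + 1 = N then u i * v j * w k else 0 :=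
    fun i => Finset.sum_comm
  rw [Finset.sum_congr rfl (fun i _ => h1 i), Finset.sum_comm]

lemma lin_add_left {h N : ℕ} (u u' v : Fin h → ZMod 2) :
    lin N (u + u') v = lin N u v + lin N u' v := by
  funext k
  simp only [lin, Pi.add_apply, ← Finset.sum_add_distrib]
  refine Finset.sum_congr rfl (fun i _ => Finset.sum_congr rfl (fun j _ => ?_))
  split_ifs
  · ring
  · simp

lemma lin_add_right {h N : ℕ} (u v v' : Fin h → ZMod 2) :
    lin N u (v + v') = lin N u v + lin N u v' := by
  funext k
  simp only [lin, Pi.add_apply, ← Finset.sum_add_distrib]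
  refine Finset.sum_congr rfl (fun i _ => Finset.sum_congr rfl (fun j _ => ?_))
  split_ifs
  · ring
  · simp

/-- rank lemma -/
lemma rank_lemma (g : ℕ) (a : Fin (2 * g) → ZMod 2) (ha : a ≠ 0) :
    ∃ J : Finset (Fin (2 * g)), g ≤ J.card ∧ ∀ δ : Fin (2 * g) → ZMod 2,
      (∀ j ∉ J, δ j = 0) → lin (3 * g) a δ = 0 → δ = 0 := by
  classical
  -- the least index
  have hex : ∃ n : ℕ, ∃ h : n < 2 * g, a ⟨n, h⟩ ≠ 0 := by
    by_contra hcon
    push Not at hcon
    apply ha
    funext i
    exact hcon i.1 i.2
  let n0 := Nat.find hex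
  obtain ⟨hn0, han0⟩ := Nat.find_spec hex
  have hmin : ∀ i : Fin (2 * g), (i : ℕ) < n0 → a i = 0 := by
    intro i hi
    have := Nat.find_min hex hi
    push Not at this
    exact this i.2
  have main : ∀ J : Finset (Fin (2 * g)), (∀ j ∈ J, g ≤ n0 + j ∧ n0 + j + 1 ≤ 3 * g) →
      ∀ δ : Fin (2 * g) → ZMod 2, (∀ j ∉ J, δ j = 0) → lin (3 * g) a δ = 0 → δ = 0 := by
    intro J hJ δ hδ hl
    have key : ∀ n : ℕ, ∀ j : Fin (2 * g), (j : ℕ) = n → δ j = 0 := by
      intro n
      induction n using Nat.strong_induction_on with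
      | _ n ih =>
        intro j hj
        by_cases hjJ : j ∈ J
        · obtain ⟨h1, h2⟩ := hJ j hjJ
          have hk : 3 * g - 1 - n0 - j < 2 * g := by omega
          have hz : lin (3 * g) a δ ⟨3 * g - 1 - n0 - j, hk⟩ = 0 := by rw [hl]; rfl
          have hval : lin (3 * g) a δ ⟨3 * g - 1 - n0 - j, hk⟩ = a ⟨n0, hn0⟩ * δ j := by
            unfold lin
            rw [Finset.sum_eq_single (⟨n0, hn0⟩ : Fin (2 * g))]
            · rw [Finset.sum_eq_single j]
              · rw [if_pos]; simp only; omega
              · intro j' _ hne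
                rw [if_neg]
                intro h
                apply hne
                apply Fin.ext
                simp only at h
                omega
              · intro h; exact absurd (Finset.mem_univ _) h
            · intro i _ hne
              apply Finset.sum_eq_zero
              intro j' _
              split_ifs with h
              · simp only at h
                by_cases hlt : (i : ℕ) < n0
                · rw [hmin i hlt, zero_mul]
                · have hne' : (i : ℕ) ≠ n0 := fun h' => hne (Fin.ext h')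
                  have : (j' : ℕ) < n := by omega
                  rw [ih j' this j' rfl, mul_zero]
              · rfl
            · intro h; exact absurd (Finset.mem_univ _) h
          rw [hval] at hz
          rcases mul_eq_zero.mp hz with h | h
          · exact absurd h han0
          · exact h
        · exact hδ j hjJ
    funext j
    exact key j j rfl
  by_cases hlt : n0 < g
  · refine ⟨Finset.univ.filter (fun j : Fin (2 * g) => g ≤ (j : ℕ)), ?_, main _ ?_⟩
    · have : (Finset.univ.image (fun i : Fin g => (⟨g + i, by omega⟩ : Fin (2 * g)))) ⊆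
          Finset.univ.filter (fun j : Fin (2 * g) => g ≤ (j : ℕ)) := by
        intro j hj
        simp only [Finset.mem_image, Finset.mem_univ, true_and] at hj
        obtain ⟨i, rfl⟩ := hj
        simp
      have hc := Finset.card_le_card this
      rw [Finset.card_image_of_injective] at hc
      · simpa using hc
      · intro i j hij
        simp only [Fin.mk.injEq] at hij
        exact Fin.ext (by omega)
    · intro j hj
      simp only [Finset.mem_filter, Finset.mem_univ, true_and] at hj
      have := j.2
      omega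
  · refine ⟨Finset.univ.filter (fun j : Fin (2 * g) => (j : ℕ) < g), ?_, main _ ?_⟩
    · have : (Finset.univ.image (fun i : Fin g => (⟨i, by omega⟩ : Fin (2 * g)))) ⊆
          Finset.univ.filter (fun j : Fin (2 * g) => (j : ℕ) < g) := by
        intro j hj
        simp only [Finset.mem_image, Finset.mem_univ, true_and] at hj
        obtain ⟨i, rfl⟩ := hj
        simp
      have hc := Finset.card_le_card this
      rw [Finset.card_image_of_injective] at hc
      · simpa using hc
      · intro i j hij
        simp only [Fin.mk.injEq] at hij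
        exact Fin.ext hij
    · intro j hj
      simp only [Finset.mem_filter, Finset.mem_univ, true_and] at hj
      have := hn0
      have h3 : n0 < 2 * g := hn0
      omega

/-- orthogonality -/
lemma orth {κ : Type} [Fintype κ] [DecidableEq κ] (c : κ → ZMod 2) :
    ∑ τ : κ → ZMod 2, ch (dt c τ) = if c = 0 then (2 : ℝ) ^ Fintype.card κ else 0 := by
  split_ifs with hc
  · subst hc
    simp only [dt_zero_left, ch_zero]
    rw [Finset.sum_const, Finset.card_univ, Fintype.card_fun]
    simp
  · obtain ⟨k, hk⟩ : ∃ k, c k ≠ 0 := by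
      by_contra hcon
      push Not at hcon
      exact hc (funext hcon)
    have hk1 : c k = 1 := (z2 (c k)).resolve_left hk
    have h := sum_shift (Pi.single k (1 : ZMod 2)) (fun τ => ch (dt c τ))
    have h2 : ∀ τ : κ → ZMod 2, ch (dt c (τ + Pi.single k (1 : ZMod 2))) = - ch (dt c τ) := by
      intro τ
      rw [dt_add_right, ch_add]
      have : dt c (Pi.single k (1 : ZMod 2)) = 1 := by
        simp [dt, Pi.single_apply, hk1]
      rw [this, ch_one]; ring
    rw [Finset.sum_congr rfl (fun τ _ => h2 τ), Finset.sum_neg_distrib] at h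
    linarith

/-- vector supported on the block `t` -/
def emb (g l : ℕ) (t : Fin 3) (τ : Fin (2 * g) → ZMod 2) : Vars g l → ZMod 2 :=
  Sum.elim (fun _ => 0) (fun y => if y.1 = t then τ y.2 else 0)

lemma blk_add {g l : ℕ} (x y : Vars g l → ZMod 2) (r : Fin 3) :
    blk (x + y) r = blk x r + blk y r := rfl

lemma blk_emb {g l : ℕ} (t : Fin 3) (τ : Fin (2 * g) → ZMod 2) :
    blk (emb g l t τ) t = τ := by
  funext i; simp [blk, emb]

lemma blk_emb_ne {g l : ℕ} {t r : Fin 3} (h : r ≠ t) (τ : Fin (2 * g) → ZMod 2) :
    blk (emb g l t τ) r = 0 := by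
  funext i; simp [blk, emb, h]

lemma dt_emb {g l : ℕ} (t : Fin 3) (τ : Fin (2 * g) → ZMod 2) (ψ : Vars g l → ZMod 2) :
    dt ψ (emb g l t τ) = dt (blk ψ t) τ := by
  unfold dt
  rw [Fintype.sum_sum_type]
  simp only [emb, Sum.elim_inl, Sum.elim_inr, mul_zero, Finset.sum_const_zero, zero_add]
  rw [Fintype.sum_prod_type, Finset.sum_eq_single t]
  · simp [blk]
  · intro r _ hr
    simp [hr]
  · intro h; exact absurd (Finset.mem_univ _) h

/-- bound for the derivative of the target, relative to a permutation `(r, s, t)` of the blocks -/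
lemma deriv_bound_perm {g l : ℕ} (p : (Fin l → ZMod 2) → ZMod 2) (r s t : Fin 3)
    (hrs : r ≠ s) (hrt : r ≠ t) (hst : s ≠ t)
    (hp : ∀ x : Vars g l → ZMod 2, target p x = p (fun i => x (Sum.inl i)) +
      cub (3 * g) (blk x r) (blk x s) (blk x t))
    (d : Vars g l → ZMod 2) (hd : blk d r ≠ 0) (ψ : Vars g l → ZMod 2) :
    |∑ x, (ch (target p x) * ch (target p (x + d))) * ch (dt ψ x)| ≤
      2 ^ Fintype.card (Vars g l) / 2 ^ g := by
  classical
  let lam : (Vars g l → ZMod 2) → Fin (2 * g) → ZMod 2 := fun x =>
    lin (3 * g) (blk x r) (blk x s) + lin (3 * g) (blk (x + d) r) (blk (x + d) s) + blk ψ t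
  let H : (Vars g l → ZMod 2) → ℝ := fun x => (ch (target p x) * ch (target p (x + d))) * ch (dt ψ x)
  have hT : ∀ (x : Vars g l → ZMod 2) (τ : Fin (2 * g) → ZMod 2),
      target p (x + emb g l t τ) = target p x + dt (lin (3 * g) (blk x r) (blk x s)) τ := by
    intro x τ
    rw [hp, hp]
    rw [blk_add, blk_add, blk_add, blk_emb, blk_emb_ne hrt, blk_emb_ne hst, add_zero, add_zero,
      cub_lin, dt_add_right, cub_lin]
    have : (fun i => (x + emb g l t τ) (Sum.inl i)) = (fun i => x (Sum.inl i)) := by
      funext i; simp [emb]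
    rw [this]; ring
  have hH : ∀ (x : Vars g l → ZMod 2) (τ : Fin (2 * g) → ZMod 2),
      H (x + emb g l t τ) = H x * ch (dt (lam x) τ) := by
    intro x τ
    have e1 : x + emb g l t τ + d = (x + d) + emb g l t τ := by abel
    simp only [H, lam]
    rw [hT, e1, hT, dt_add_right, dt_emb, dt_add_left, dt_add_left, ch_add, ch_add, ch_add, ch_add,
      ch_add]
    ring
  have hsum : (2 : ℝ) ^ (2 * g) * ∑ x, H x =
      ∑ x, H x * (if lam x = 0 then (2 : ℝ) ^ (2 * g) else 0) := by
    have h1 : ∀ τ : Fin (2 * g) → ZMod 2, ∑ x, H x = ∑ x, H x * ch (dt (lam x) τ) := by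
      intro τ
      rw [← sum_shift (emb g l t τ) H]
      exact Finset.sum_congr rfl (fun x _ => hH x τ)
    have h2 : ∑ _τ : Fin (2 * g) → ZMod 2, ∑ x, H x = (2 : ℝ) ^ (2 * g) * ∑ x, H x := by
      rw [Finset.sum_const, Finset.card_univ, Fintype.card_fun]
      simp
    rw [← h2, Finset.sum_congr rfl (fun τ _ => h1 τ), Finset.sum_comm]
    refine Finset.sum_congr rfl (fun x _ => ?_)
    rw [← Finset.mul_sum, orth]
    simp
  have habs : |∑ x, H x| ≤ ((Finset.univ.filter (fun x => lam x = 0)).card : ℝ) := by
    have hpos : (0 : ℝ) < 2 ^ (2 * g) := by positivity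
    have h3 : ∑ x, H x = ∑ x, H x * (if lam x = 0 then (1 : ℝ) else 0) := by
      have : (2 : ℝ) ^ (2 * g) * ∑ x, H x =
          2 ^ (2 * g) * ∑ x, H x * (if lam x = 0 then (1 : ℝ) else 0) := by
        rw [hsum, Finset.mul_sum]
        refine Finset.sum_congr rfl (fun x _ => ?_)
        split_ifs <;> ring
      exact mul_left_cancel₀ hpos.ne' this
    rw [h3]
    refine (Finset.abs_sum_le_sum_abs _ _).trans ?_
    have h4 : ∀ x, |H x * (if lam x = 0 then (1 : ℝ) else 0)| ≤ if lam x = 0 then 1 else 0 := by
      intro x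
      split_ifs
      · simp only [H, mul_one, abs_mul, abs_ch]; norm_num
      · simp
    refine (Finset.sum_le_sum (fun x _ => h4 x)).trans ?_
    rw [Finset.sum_ite, Finset.sum_const_zero, add_zero, Finset.sum_const, nsmul_eq_mul, mul_one]
  -- the count
  obtain ⟨J, hJc, hJ⟩ := rank_lemma g (blk d r) hd
  have hcount : (Finset.univ.filter (fun x => lam x = 0)).card ≤
      2 ^ (Fintype.card (Vars g l) - g) := by
    let J' : Finset (Vars g l) := J.image (fun j => Sum.inr (s, j))
    have hJ'c : J'.card = J.card := by
      apply Finset.card_image_of_injective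
      intro i j hij
      simpa using hij
    have hinj : (Finset.univ.filter (fun x => lam x = 0)).card ≤
        Fintype.card ({v : Vars g l // v ∉ J'} → ZMod 2) := by
      rw [← Fintype.card_coe]
      refine Fintype.card_le_of_injective (fun x v => x.1 v.1) ?_
      rintro ⟨x, hx⟩ ⟨y, hy⟩ hxy
      simp only [Finset.mem_filter, Finset.mem_univ, true_and] at hx hy
      have hag : ∀ v : Vars g l, v ∉ J' → x v = y v := by
        intro v hv
        exact congrFun hxy ⟨v, hv⟩
      have hr : blk x r = blk y r := by
        funext i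
        apply hag
        simp only [J', Finset.mem_image, not_exists, not_and]
        intro j _ h
        simp only [Sum.inr.injEq, Prod.mk.injEq] at h
        exact hrs h.1.symm
      have hδ : blk x s + blk y s = 0 := by
        apply hJ
        · intro j hj
          have : x (Sum.inr (s, j)) = y (Sum.inr (s, j)) := by
            apply hag
            simp only [J', Finset.mem_image, not_exists, not_and]
            intro j' hj' h
            simp only [Sum.inr.injEq, Prod.mk.injEq, true_and] at h
            exact hj (h ▸ hj')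
          simp only [Pi.add_apply, blk, this]
          exact add_self2 _
        · have e : lam x + lam y = 0 := by rw [hx, hy, add_zero]
          simp only [lam, blk_add, hr, lin_add_left, lin_add_right] at e
          funext k
          have ek := congrFun e k
          simp only [Pi.add_apply, Pi.zero_apply] at ek
          rw [lin_add_right]
          simp only [Pi.add_apply, Pi.zero_apply]
          generalize lin (3 * g) (blk y r) (blk x s) k = A1 at ek ⊢
          generalize lin (3 * g) (blk y r) (blk y s) k = A2 at ek ⊢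
          generalize lin (3 * g) (blk d r) (blk x s) k = A3 at ek ⊢
          generalize lin (3 * g) (blk d r) (blk y s) k = A4 at ek ⊢
          generalize lin (3 * g) (blk d r) (blk d s) k = A5 at ek ⊢
          generalize lin (3 * g) (blk y r) (blk d s) k = A6 at ek ⊢
          generalize blk ψ t k = A7 at ek ⊢
          clear * - ek
          revert ek
          revert A1 A2 A3 A4 A5 A6 A7
          decide
      apply Subtype.ext
      simp only
      funext v
      by_cases hv : v ∈ J'
      · simp only [J', Finset.mem_image] at hv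
        obtain ⟨j, _, rfl⟩ := hv
        have := congrFun hδ j
        simp only [Pi.add_apply, Pi.zero_apply, blk] at this
        have h2 := add_self2 (y (Sum.inr (s, j)))
        calc x (Sum.inr (s, j)) = x (Sum.inr (s, j)) + (y (Sum.inr (s, j)) + y (Sum.inr (s, j))) := by
              rw [h2, add_zero]
          _ = (x (Sum.inr (s, j)) + y (Sum.inr (s, j))) + y (Sum.inr (s, j)) := by ring
          _ = y (Sum.inr (s, j)) := by rw [this, zero_add]
      · exact hag v hv
    refine hinj.trans ?_
    rw [Fintype.card_fun, ZMod.card, Fintype.card_subtype_compl]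
    apply Nat.pow_le_pow_right (by norm_num)
    rw [Fintype.card_coe, hJ'c]
    omega
  have hg : g ≤ Fintype.card (Vars g l) := by
    simp only [Fintype.card_sum, Fintype.card_prod, Fintype.card_fin]; omega
  calc |∑ x, (ch (target p x) * ch (target p (x + d))) * ch (dt ψ x)|
      ≤ ((Finset.univ.filter (fun x => lam x = 0)).card : ℝ) := habs
    _ ≤ ((2 ^ (Fintype.card (Vars g l) - g) : ℕ) : ℝ) := by exact_mod_cast hcount
    _ = 2 ^ Fintype.card (Vars g l) / 2 ^ g := by
        rw [eq_div_iff (by positivity)]
        push_cast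
        rw [← pow_add, Nat.sub_add_cancel hg]

lemma deriv_bound {g l : ℕ} (p : (Fin l → ZMod 2) → ZMod 2)
    (d : Vars g l → ZMod 2) (hd : ∃ r, blk d r ≠ 0) (ψ : Vars g l → ZMod 2) :
    |∑ x, (ch (target p x) * ch (target p (x + d))) * ch (dt ψ x)| ≤
      2 ^ Fintype.card (Vars g l) / 2 ^ g := by
  obtain ⟨r, hr⟩ := hd
  fin_cases r
  · exact deriv_bound_perm p 0 1 2 (by decide) (by decide) (by decide) (fun x => rfl) d hr ψ
  · refine deriv_bound_perm p 1 0 2 (by decide) (by decide) (by decide) (fun x => ?_) d hr ψ
    rw [target_eq, cub_swap12]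
  · refine deriv_bound_perm p 2 0 1 (by decide) (by decide) (by decide) (fun x => ?_) d hr ψ
    rw [target_eq, cub_swap23, cub_swap12]

end Pool.Agent.H657R3
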