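import Pool.Agent.H657R3.Lbp3

set_option autoImplicit false

namespace Pool.Agent.H657R3

open Finset Relation

/-- number of vectors with vanishing blocks -/
lemma card_flat {g l : ℕ} (D : Finset (Vars g l → ZMod 2)) :
    (D.filter (fun d => ¬ ∃ r, blk d r ≠ 0)).card ≤ 2 ^ l := by
  classical
  have h : (D.filter (fun d => ¬ ∃ r, blk d r ≠ 0)).card ≤ Fintype.card (Fin l → ZMod 2) := by
    rw [← Fintype.card_coe]
    refine Fintype.card_le_of_injective (fun x i => x.1 (Sum.inl i)) ?_
    rintro ⟨x, hx⟩ ⟨y, hy⟩ hxy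
    simp only [Finset.mem_filter, not_exists, ne_eq, not_not] at hx hy
    apply Subtype.ext
    simp only
    funext v
    rcases v with i | ⟨r, i⟩
    · exact congrFun hxy i
    · have h1 := congrFun (hx.2 r) i
      have h2 := congrFun (hy.2 r) i
      simp only [blk, Pi.zero_apply] at h1 h2
      rw [h1, h2]
  simpa using h

/-- contribution of one edge -/
lemma edge_bound {g l : ℕ} (p : (Fin l → ZMod 2) → ZMod 2) (B : LBP (Vars g l)) (m v T : ℕ)
    (hT : height B v ≤ T) (W : Submodule (ZMod 2) (Vars g l → ZMod 2))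
    (hW : Module.finrank (ZMod 2) W + m ≤ Fintype.card (Vars g l))
    (Y : Finset (Vars g l → ZMod 2)) (hY : ∀ x ∈ Y, ∀ d ∈ ann W, x + d ∈ Y) :
    (∑ x ∈ Y, ch (target p x) * ch (B.eval x v)) ^ 2 ≤
      Y.card * (2 ^ Fintype.card (Vars g l) * (2 ^ l / 2 ^ m + 4 ^ T / 2 ^ g)) := by
  classical
  set n := Fintype.card (Vars g l) with hn
  have hsm := second_moment (ann W) Y (zero_mem_ann W) (add_mem_ann W) hY
    (fun x => ch (target p x) * ch (B.eval x v))
  have hcard : ((2 : ℝ) ^ m) ≤ ((ann W).card : ℝ) := by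
    exact_mod_cast card_ann W m hW
  have hpos : (0 : ℝ) < ((ann W).card : ℝ) := lt_of_lt_of_le (by positivity) hcard
  have hterm : ∀ d ∈ ann W, ∑ x, (ch (target p x) * ch (B.eval x v)) *
      (ch (target p (x + d)) * ch (B.eval (x + d) v)) ≤
      (if ∃ r, blk d r ≠ 0 then 0 else (2 : ℝ) ^ n) + 4 ^ T * (2 ^ n / 2 ^ g) := by
    intro d _
    split_ifs with hd
    · have h1 := spec_two B (2 ^ n / 2 ^ g) v d (fun x => ch (target p x) * ch (target p (x + d)))
        (fun ψ => deriv_bound p d hd ψ)
      have h2 : ∑ x, (ch (target p x) * ch (B.eval x v)) *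
          (ch (target p (x + d)) * ch (B.eval (x + d) v)) =
          ∑ x, (ch (target p x) * ch (target p (x + d))) * ch (B.eval x v) *
            ch (B.eval (x + d) v) := Finset.sum_congr rfl (fun x _ => by ring)
      rw [h2, zero_add]
      refine (le_abs_self _).trans (h1.trans ?_)
      exact mul_le_mul_of_nonneg_right (pow_le_pow_right₀ (by norm_num) hT) (by positivity)
    · have h3 : ∀ x, (ch (target p x) * ch (B.eval x v)) *
          (ch (target p (x + d)) * ch (B.eval (x + d) v)) ≤ 1 := by
        intro x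
        refine (le_abs_self _).trans ?_
        simp only [abs_mul, abs_ch]; norm_num
      have h4 : ∑ x, (ch (target p x) * ch (B.eval x v)) *
          (ch (target p (x + d)) * ch (B.eval (x + d) v)) ≤ 2 ^ n := by
        refine (Finset.sum_le_sum (fun x _ => h3 x)).trans ?_
        rw [Finset.sum_const, Finset.card_univ, Fintype.card_fun]
        simp [← hn]
      have h5 : (0 : ℝ) ≤ 4 ^ T * (2 ^ n / 2 ^ g) := by positivity
      linarith
  have hsum : ∑ d ∈ ann W, ∑ x, (ch (target p x) * ch (B.eval x v)) *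
      (ch (target p (x + d)) * ch (B.eval (x + d) v)) ≤
      2 ^ l * 2 ^ n + (ann W).card * (4 ^ T * (2 ^ n / 2 ^ g)) := by
    refine (Finset.sum_le_sum hterm).trans ?_
    rw [Finset.sum_add_distrib, Finset.sum_const, nsmul_eq_mul]
    have h6 : ∑ d ∈ ann W, (if ∃ r, blk d r ≠ 0 then 0 else (2 : ℝ) ^ n) ≤ 2 ^ l * 2 ^ n := by
      rw [Finset.sum_ite, Finset.sum_const_zero, zero_add, Finset.sum_const, nsmul_eq_mul]
      apply mul_le_mul_of_nonneg_right _ (by positivity)
      exact_mod_cast card_flat (ann W)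
    linarith
  have hfin : (∑ x ∈ Y, ch (target p x) * ch (B.eval x v)) ^ 2 * (ann W).card ≤
      (Y.card * (2 ^ n * (2 ^ l / 2 ^ m + 4 ^ T / 2 ^ g))) * (ann W).card := by
    refine hsm.trans ?_
    refine (mul_le_mul_of_nonneg_left hsum (by positivity)).trans ?_
    rw [mul_assoc (Y.card : ℝ)]
    apply mul_le_mul_of_nonneg_left _ (by positivity)
    have h7 : (2 : ℝ) ^ l * 2 ^ n ≤ 2 ^ n * (2 ^ l / 2 ^ m) * (ann W).card := by
      have : (2 : ℝ) ^ l * 2 ^ n = 2 ^ n * (2 ^ l / 2 ^ m) * 2 ^ m := by
        field_simp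
      rw [this]
      exact mul_le_mul_of_nonneg_left hcard (by positivity)
    have h8 : ((ann W).card : ℝ) * (4 ^ T * (2 ^ n / 2 ^ g)) =
        2 ^ n * (4 ^ T / 2 ^ g) * (ann W).card := by ring
    nlinarith [h7, h8]
  exact le_of_mul_le_mul_right hfin hpos

lemma finrank_sup_span_le {ι : Type} [Fintype ι] [DecidableEq ι]
    (W : Submodule (ZMod 2) (ι → ZMod 2)) (c : ι → ZMod 2) :
    Module.finrank (ZMod 2) ↥(W ⊔ Submodule.span (ZMod 2) {c}) ≤
      Module.finrank (ZMod 2) W + 1 := by
  have h1 := Submodule.finrank_add_le_finrank_add_finrank W (Submodule.span (ZMod 2) {c})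
  have h2 : Module.finrank (ZMod 2) ↥(Submodule.span (ZMod 2) {c}) ≤ 1 :=
    (finrank_span_le_card ({c} : Set (ι → ZMod 2))).trans (by simp)
  omega

lemma pre_zero_eq {ι : Type} [Fintype ι] (B : LBP ι) : B.Pre 0 = ⊥ := by
  unfold LBP.Pre
  rw [Submodule.span_eq_bot]
  rintro c ⟨u, _, h, _⟩
  exfalso
  have hlt : ∀ {a b : ℕ}, TransGen B.Edge a b → a < b := by
    intro a b hab
    induction hab with
    | single h =>
      obtain ⟨h1, c, rfl⟩ := h
      exact B.lt_nxt _ h1 c
    | tail _ h ih =>
      obtain ⟨h1, c, rfl⟩ := h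
      exact ih.trans (B.lt_nxt _ h1 c)
  exact absurd (hlt h) (Nat.not_lt_zero _)

lemma ch_sum_sq_le {ι : Type} [Fintype ι] [DecidableEq ι] (f : (ι → ZMod 2) → ZMod 2)
    (e : (ι → ZMod 2) → ZMod 2) :
    (∑ x, ch (f x) * ch (e x)) ^ 2 ≤ 4 ^ Fintype.card ι := by
  have h1 : |∑ x, ch (f x) * ch (e x)| ≤ 2 ^ Fintype.card ι := by
    refine (Finset.abs_sum_le_sum_abs _ _).trans ?_
    have : ∀ x, |ch (f x) * ch (e x)| = 1 := fun x => by simp [abs_mul, abs_ch]
    rw [Finset.sum_congr rfl (fun x _ => this x), Finset.sum_const, Finset.card_univ,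
      Fintype.card_fun]
    simp
  have h2 : (4 : ℝ) ^ Fintype.card ι = (2 ^ Fintype.card ι) ^ 2 := by
    rw [← pow_mul, mul_comm, pow_mul]; norm_num
  rw [h2]
  exact sq_le_sq' (by linarith [(abs_le.mp h1).1]) (abs_le.mp h1).2

/-- the correlation bound -/
theorem correlation {g l : ℕ} (p : (Fin l → ZMod 2) → ZMod 2) (B : LBP (Vars g l)) (m k : ℕ)
    (hk : B.late m 0 ≤ k) :
    (∑ x, ch (target p x) * ch (B.eval x 0)) ^ 2 ≤
      (2 * B.s + 1) * 4 ^ Fintype.card (Vars g l) * (2 ^ l / 2 ^ m + 4 ^ (m + k) / 2 ^ g) := by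
  classical
  set n := Fintype.card (Vars g l) with hn
  have hC : (0 : ℝ) ≤ 2 ^ l / 2 ^ m + 4 ^ (m + k) / 2 ^ g := by positivity
  have h4 : (4 : ℝ) ^ n = 2 ^ n * 2 ^ n := by rw [← mul_pow]; norm_num
  have hgn : g ≤ n := by
    simp only [hn, Fintype.card_sum, Fintype.card_prod, Fintype.card_fin]; omega
  by_cases hm : n ≤ m
  · -- trivial case
    have h1 := ch_sum_sq_le (fun x => target p x) (fun x => B.eval x 0)
    refine h1.trans ?_
    have h2 : (1 : ℝ) ≤ 4 ^ (m + k) / 2 ^ g := by
      rw [le_div_iff₀ (by positivity), one_mul]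
      calc (2 : ℝ) ^ g ≤ 2 ^ (m + k) := pow_le_pow_right₀ (by norm_num) (by omega)
        _ ≤ 4 ^ (m + k) := by gcongr; norm_num
    have h3 : (0 : ℝ) ≤ 2 ^ l / 2 ^ m := by positivity
    have h5 : (0 : ℝ) ≤ B.s := by positivity
    have h6 : (1 : ℝ) ≤ (2 * B.s + 1) * (2 ^ l / 2 ^ m + 4 ^ (m + k) / 2 ^ g) := by nlinarith
    calc (4 : ℝ) ^ n = 4 ^ n * 1 := by ring
      _ ≤ 4 ^ n * ((2 * B.s + 1) * (2 ^ l / 2 ^ m + 4 ^ (m + k) / 2 ^ g)) :=
          mul_le_mul_of_nonneg_left h6 (by positivity)
      _ = _ := by ring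
  · push Not at hm
    by_cases hs : Short B m 0
    · -- no query nodes
      have hs0 : ¬ 0 < B.s := by
        rcases hs with h | h
        · omega
        · rw [pre_zero_eq, finrank_bot] at h
          omega
      have h1 := edge_bound p B m 0 (m + k) (by rw [height_ge B hs0]; omega) ⊥
        (by rw [finrank_bot]; omega) Finset.univ (fun x _ d _ => Finset.mem_univ _)
      refine h1.trans ?_
      rw [Finset.card_univ, Fintype.card_fun, ZMod.card]
      push_cast
      rw [← hn, ← mul_assoc, ← h4]
      apply mul_le_mul_of_nonneg_right _ hC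
      have h5 : (0 : ℝ) ≤ B.s := by positivity
      nlinarith [pow_pos (show (0 : ℝ) < 4 by norm_num) n]
    · have hR : Rc B 0 := ReflTransGen.refl
      let E : (Vars g l → ZMod 2) → ℕ × ZMod 2 := fun x =>
        (cut B m x 0, dt (B.q (cut B m x 0)) x)
      let I : Finset (ℕ × ZMod 2) := Finset.range B.s ×ˢ Finset.univ
      have hmaps : ∀ x ∈ (Finset.univ : Finset (Vars g l → ZMod 2)), E x ∈ I := by
        intro x _
        have hx := cut_spec B m x _ 0 rfl hR hs
        simp only [I, E, Finset.mem_product, Finset.mem_range, Finset.mem_univ, and_true]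
        exact not_short_lt B m hx.1
      have hIc : (I.card : ℝ) = 2 * B.s := by
        simp only [I, Finset.card_product, Finset.card_range, Finset.card_univ, ZMod.card]
        push_cast; ring
      have hsplit : ∑ x, ch (target p x) * ch (B.eval x 0) =
          ∑ e ∈ I, ∑ x ∈ Finset.univ.filter (fun x => E x = e),
            ch (target p x) * ch (B.eval x 0) :=
        (Finset.sum_fiberwise_of_maps_to hmaps _).symm
      have hcards : ∑ e ∈ I, ((Finset.univ.filter (fun x => E x = e)).card : ℝ) = 2 ^ n := by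
        have h := Finset.card_eq_sum_card_fiberwise hmaps
        rw [Finset.card_univ, Fintype.card_fun, ZMod.card] at h
        rw [← Nat.cast_sum, ← h]
        push_cast
        rfl
      have hedge : ∀ e ∈ I, (∑ x ∈ Finset.univ.filter (fun x => E x = e),
            ch (target p x) * ch (B.eval x 0)) ^ 2 ≤
          ((Finset.univ.filter (fun x => E x = e)).card : ℝ) *
            (2 ^ n * (2 ^ l / 2 ^ m + 4 ^ (m + k) / 2 ^ g)) := by
        rintro ⟨u, b⟩ _
        rcases (Finset.univ.filter (fun x => E x = (u, b))).eq_empty_or_nonempty with he | ⟨x0, hx0⟩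
        · rw [he]; simp
        · simp only [Finset.mem_filter, Finset.mem_univ, true_and, E, Prod.mk.injEq] at hx0
          obtain ⟨hu, hb⟩ := hx0
          have hx := cut_spec B m x0 _ 0 rfl hR hs
          rw [hu] at hx
          obtain ⟨i1, i2, i3, i4, i5, i6, i7⟩ := hx
          rw [hu] at hb
          rw [hb] at i3 i5
          have hus := not_short_lt B m i1
          -- the height of the next node
          have hht : height B (B.nxt u b) ≤ m + k := by
            by_cases hd : Fintype.card (Vars g l) ≤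
                Module.finrank (ZMod 2) (B.Pre (B.nxt u b)) + m
            · have := height_le B m _ (B.nxt u b) rfl
                (ReflTransGen.tail i2 (edge_nxt B hus b)) hd
              omega
            · rcases i3 with h | h
              · rw [height_ge B (by omega)]; omega
              · exact absurd h hd
          have hdim : Module.finrank (ZMod 2)
              ↥(B.Pre u ⊔ Submodule.span (ZMod 2) {B.q u}) + m ≤ n := by
            have h1 := finrank_sup_span_le (B.Pre u) (B.q u)
            unfold Short at i1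
            push Not at i1
            have h2 := i1.2
            omega
          have hval : ∀ x ∈ Finset.univ.filter (fun x => E x = (u, b)),
              ch (target p x) * ch (B.eval x 0) =
              ch (target p x) * ch (B.eval x (B.nxt u b)) := by
            intro x hxm
            simp only [Finset.mem_filter, Finset.mem_univ, true_and, E, Prod.mk.injEq] at hxm
            have hx2 := cut_spec B m x _ 0 rfl hR hs
            rw [hxm.1] at hx2 hxm
            rw [hx2.2.2.2.1, hxm.2]
          rw [Finset.sum_congr rfl hval]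
          refine edge_bound p B m (B.nxt u b) (m + k) hht _ hdim _ ?_
          intro x hxm d hd
          simp only [Finset.mem_filter, Finset.mem_univ, true_and, E, Prod.mk.injEq] at hxm ⊢
          have hx2 := cut_spec B m x _ 0 rfl hR hs
          rw [hxm.1] at hx2 hxm
          have h7 := hx2.2.2.2.2.2.2 d hd
          rw [h7]
          refine ⟨rfl, ?_⟩
          rw [dt_add_right, hxm.2]
          rw [mem_ann] at hd
          rw [hd _ (Submodule.mem_sup_right (Submodule.subset_span rfl)), add_zero]
      rw [hsplit]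
      have hcs : (∑ e ∈ I, ∑ x ∈ Finset.univ.filter (fun x => E x = e),
            ch (target p x) * ch (B.eval x 0)) ^ 2 ≤
          I.card * ∑ e ∈ I, (∑ x ∈ Finset.univ.filter (fun x => E x = e),
            ch (target p x) * ch (B.eval x 0)) ^ 2 := sq_sum_le_card_mul_sum_sq
      refine hcs.trans ?_
      refine (mul_le_mul_of_nonneg_left (Finset.sum_le_sum hedge) (by positivity)).trans ?_
      rw [← Finset.sum_mul, hcards, hIc]
      have h9 : 2 * (B.s : ℝ) * (2 ^ n * (2 ^ n * (2 ^ l / 2 ^ m + 4 ^ (m + k) / 2 ^ g))) =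
          2 * B.s * 4 ^ n * (2 ^ l / 2 ^ m + 4 ^ (m + k) / 2 ^ g) := by rw [h4]; ring
      rw [h9]
      apply mul_le_mul_of_nonneg_right _ hC
      apply mul_le_mul_of_nonneg_right _ (by positivity)
      linarith

end Pool.Agent.H657R3
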