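import Mathlib

set_option autoImplicit false

namespace Pool.Agent.H657R3

open Relation

/-- A linear branching program over the field with two elements, with variables `ι`. The nodes are
natural numbers, `0` is the source. A node `v < s` is a query node: it asks for the value
`b = ∑ i, q v i * x i` of a linear form at the input `x`, and the computation goes on at the node
`nxt v b`, which has a larger number (so the graph is acyclic). A node `v ≥ s` is a sink, with the
output `out v`. The number of query nodes is `s`; there may be any number of sinks. -/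
structure LBP (ι : Type) where
  s : ℕ
  q : ℕ → ι → ZMod 2
  nxt : ℕ → ZMod 2 → ℕ
  lt_nxt : ∀ v, v < s → ∀ b, v < nxt v b
  out : ℕ → ZMod 2

section defs
variable {ι : Type} [Fintype ι]

/-- The output on the input `x` of the computation that starts at the node `v`. The program
computes the function `x ↦ B.eval x 0`. -/
def LBP.eval (B : LBP ι) (x : ι → ZMod 2) (v : ℕ) : ZMod 2 :=
  if h : v < B.s then B.eval x (B.nxt v (∑ i, B.q v i * x i)) else B.out v
termination_by B.s - v
decreasing_by
  have := B.lt_nxt v h (∑ i, B.q v i * x i)
  omega

/-- There is an edge from the query node `u` to the node `v`. -/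
def LBP.Edge (B : LBP ι) (u v : ℕ) : Prop := u < B.s ∧ ∃ b, B.nxt u b = v

/-- The span of all the linear forms that are queried before `v` on some path from the source to
`v`. -/
def LBP.Pre (B : LBP ι) (v : ℕ) : Submodule (ZMod 2) (ι → ZMod 2) :=
  Submodule.span (ZMod 2) {c | ∃ u, ReflTransGen B.Edge 0 u ∧ TransGen B.Edge u v ∧ B.q u = c}

open Classical in
/-- The largest number of late re-queries on a path that starts at `v`. A late re-query is a query
node `u` whose linear form lies in `Pre u`, such that the codimension of `Pre u` is at most `m`. -/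
noncomputable def LBP.late (B : LBP ι) (m : ℕ) (v : ℕ) : ℕ :=
  if h : v < B.s then
    max (B.late m (B.nxt v 0)) (B.late m (B.nxt v 1)) +
      (if B.q v ∈ B.Pre v ∧ Fintype.card ι ≤ Module.finrank (ZMod 2) (B.Pre v) + m then 1 else 0)
  else 0
termination_by B.s - v
decreasing_by
  · have := B.lt_nxt v h 0
    omega
  · have := B.lt_nxt v h 1
    omega

end defs

/-- The `l + 6 g` variables: `l` variables `w` and three blocks `x`, `y`, `z` of `2 g` variables. -/
abbrev Vars (g l : ℕ) : Type := Fin l ⊕ (Fin 3 × Fin (2 * g))

/-- The function `p(w) + ∑ x_i y_j z_k`, the sum over all `i, j, k < 2 g` with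
`i + j + k = 3 g - 1`. -/
def target {g l : ℕ} (p : (Fin l → ZMod 2) → ZMod 2) (x : Vars g l → ZMod 2) : ZMod 2 :=
  p (fun i => x (Sum.inl i)) + ∑ i : Fin (2 * g), ∑ j : Fin (2 * g), ∑ k : Fin (2 * g),
    if (i : ℕ) + j + k + 1 = 3 * g then
      x (Sum.inr (0, i)) * x (Sum.inr (1, j)) * x (Sum.inr (2, k)) else 0

end Pool.Agent.H657R3
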