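import Pool.Agent.H657R3.Lbp2

set_option autoImplicit false

namespace Pool.Agent.H657R3.ND

open Finset Module Pool.Agent.H657R3

section general
variable {V : Type} [AddCommGroup V] [Module (ZMod 2) V] [FiniteDimensional (ZMod 2) V]

lemma coann_inf (F W : Submodule (ZMod 2) (Dual (ZMod 2) V)) :
    (F ⊓ W).dualCoannihilator = F.dualCoannihilator ⊔ W.dualCoannihilator := by
  have hF : F.dualCoannihilator.dualAnnihilator = F := Subspace.dualCoannihilator_dualAnnihilator_eq
  have hW : W.dualCoannihilator.dualAnnihilator = W := Subspace.dualCoannihilator_dualAnnihilator_eq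
  conv_lhs => rw [← hF, ← hW, ← Submodule.dualAnnihilator_sup_eq]
  exact Subspace.dualAnnihilator_dualCoannihilator_eq

/-- intermediate subspaces -/
lemma exists_between' {U : Type} [AddCommGroup U] [Module (ZMod 2) U]
    [FiniteDimensional (ZMod 2) U] (r : ℕ) : ∀ (j : ℕ) (A B : Submodule (ZMod 2) U), A ≤ B →
    finrank (ZMod 2) A + j = r → r ≤ finrank (ZMod 2) B →
    ∃ W, A ≤ W ∧ W ≤ B ∧ finrank (ZMod 2) W = r := by
  intro j
  induction j with
  | zero =>
    intro A B hAB h1 h2
    exact ⟨A, le_refl _, hAB, by omega⟩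
  | succ j ih =>
    intro A B hAB h1 h2
    have hne : A ≠ B := by
      intro h
      rw [h] at h1
      omega
    obtain ⟨x, hxB, hxA⟩ := SetLike.exists_of_lt (lt_of_le_of_ne hAB hne)
    have hle : A ⊔ Submodule.span (ZMod 2) {x} ≤ B :=
      sup_le hAB ((Submodule.span_singleton_le_iff_mem x B).mpr hxB)
    have hlt : A < A ⊔ Submodule.span (ZMod 2) {x} := by
      refine lt_of_le_of_ne le_sup_left ?_
      intro h
      apply hxA
      rw [h]
      exact Submodule.mem_sup_right (Submodule.mem_span_singleton_self x)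
    have hfr : finrank (ZMod 2) ↥(A ⊔ Submodule.span (ZMod 2) {x}) = finrank (ZMod 2) A + 1 := by
      have g1 := Submodule.finrank_lt_finrank_of_lt hlt
      have g2 := Submodule.finrank_add_le_finrank_add_finrank A (Submodule.span (ZMod 2) {x})
      have g3 : finrank (ZMod 2) ↥(Submodule.span (ZMod 2) {x}) ≤ 1 :=
        (finrank_span_le_card ({x} : Set U)).trans (by simp)
      omega
    obtain ⟨W, hW1, hW2, hW3⟩ := ih (A ⊔ Submodule.span (ZMod 2) {x}) B hle (by omega) h2
    exact ⟨W, le_sup_left.trans hW1, hW2, hW3⟩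

/-- the covering lemma -/
lemma cover_lemma {Y C : Type} [DecidableEq C] (Q : Finset C) (y : C → Y)
    (f : C → (Y → ZMod 2)) (hf : ∀ c ∈ Q, f c (y c) ≠ 0) (U : Submodule (ZMod 2) (Y → ZMod 2))
    [FiniteDimensional (ZMod 2) U] (hU : ∀ c ∈ Q, f c ∈ U) (β : ℝ) (hβ : 0 ≤ β)
    (hB : ∀ c ∈ Q, ((Q.filter (fun c' => f c (y c') ≠ 0)).card : ℝ) ≤ β) :
    (Q.card : ℝ) ≤ finrank (ZMod 2) U * β := by
  classical
  obtain ⟨b, hb1, hb2, hb3⟩ := exists_linearIndependent (ZMod 2) (f '' (Q : Set C))
  have hfin : b.Finite := (Q.finite_toSet.image f).subset hb1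
  haveI : Fintype b := hfin.fintype
  have hTle : b.toFinset.card ≤ finrank (ZMod 2) U := by
    rw [← finrank_span_set_eq_card hb3]
    apply Submodule.finrank_mono
    rw [Submodule.span_le]
    intro φ hφ
    obtain ⟨c, hc, rfl⟩ := hb1 hφ
    exact hU c hc
  have hcov : Q ⊆ b.toFinset.biUnion (fun φ => Q.filter (fun c' => φ (y c') ≠ 0)) := by
    intro c' hc'
    simp only [Finset.mem_biUnion, Set.mem_toFinset, Finset.mem_filter]
    by_contra hcon
    push Not at hcon
    have hz : ∀ φ ∈ b, φ (y c') = 0 := fun φ hφ => hcon φ hφ hc'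
    have hmem : f c' ∈ Submodule.span (ZMod 2) b := by
      rw [hb2]
      exact Submodule.subset_span ⟨c', hc', rfl⟩
    apply hf c' hc'
    have : Submodule.span (ZMod 2) b ≤ LinearMap.ker (LinearMap.proj (R := ZMod 2)
        (φ := fun _ : Y => ZMod 2) (y c')) := by
      rw [Submodule.span_le]
      intro φ hφ
      exact hz φ hφ
    exact this hmem
  have h1 : (Q.card : ℝ) ≤ ∑ φ ∈ b.toFinset, ((Q.filter (fun c' => φ (y c') ≠ 0)).card : ℝ) := by
    have := (Finset.card_le_card hcov).trans Finset.card_biUnion_le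
    exact_mod_cast this
  refine h1.trans ?_
  have h2 : ∀ φ ∈ b.toFinset, ((Q.filter (fun c' => φ (y c') ≠ 0)).card : ℝ) ≤ β := by
    intro φ hφ
    rw [Set.mem_toFinset] at hφ
    obtain ⟨c, hc, rfl⟩ := hb1 hφ
    exact hB c hc
  refine (Finset.sum_le_sum h2).trans ?_
  rw [Finset.sum_const, nsmul_eq_mul]
  exact mul_le_mul_of_nonneg_right (by exact_mod_cast hTle) hβ

/-- Polynomial functions of degree at most `k` in the coordinates of a basis. -/
def Pol {V : Type} [AddCommGroup V] [Module (ZMod 2) V] {n : ℕ}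
    (β : Basis (Fin n) (ZMod 2) V) (k : ℕ) : Submodule (ZMod 2) (V → ZMod 2) :=
  Submodule.span (ZMod 2) ((fun (I : Finset (Fin n)) (z : V) => ∏ i ∈ I, β.coord i z) ''
    (((Finset.univ : Finset (Finset (Fin n))).filter (fun I => I.card ≤ k) : Finset _) : Set _))

lemma pol_mul {V : Type} [AddCommGroup V] [Module (ZMod 2) V] {n : ℕ}
    (β : Basis (Fin n) (ZMod 2) V) (k : ℕ) (g : V → ZMod 2) (hg : g ∈ Pol β k)
    (w : Dual (ZMod 2) V) (c : ZMod 2) : (fun z => (w z + c) * g z) ∈ Pol β (k + 1) := by
  classical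
  unfold Pol at hg
  induction hg using Submodule.span_induction with
  | mem g hg =>
    obtain ⟨I, hI, rfl⟩ := hg
    simp only [Finset.coe_filter, Finset.mem_univ, true_and, Set.mem_setOf_eq] at hI
    have hmon : ∀ J : Finset (Fin n), J.card ≤ k + 1 →
        (fun z : V => ∏ i ∈ J, β.coord i z) ∈ Pol β (k + 1) := by
      intro J hJ
      apply Submodule.subset_span
      refine ⟨J, ?_, rfl⟩
      simpa using hJ
    have hexp : (fun z => (w z + c) * ∏ i ∈ I, β.coord i z) =
        (∑ j : Fin n, (w (β j)) • (fun z : V => ∏ i ∈ insert j I, β.coord i z)) +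
          c • (fun z : V => ∏ i ∈ I, β.coord i z) := by
      funext z
      have hw : w z = ∑ j : Fin n, w (β j) * β.coord j z := by
        conv_lhs => rw [← β.sum_repr z]
        rw [map_sum]
        refine Finset.sum_congr rfl (fun j _ => ?_)
        rw [map_smul, smul_eq_mul, mul_comm]
        rfl
      simp only [Pi.add_apply, Finset.sum_apply, Pi.smul_apply, smul_eq_mul]
      rw [add_mul, hw, Finset.sum_mul]
      congr 1
      refine Finset.sum_congr rfl (fun j _ => ?_)
      rw [mul_assoc]
      congr 1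
      by_cases hj : j ∈ I
      · rw [Finset.insert_eq_of_mem hj, ← Finset.mul_prod_erase I _ hj, ← mul_assoc]
        congr 1
        have : ∀ a : ZMod 2, a * a = a := by decide
        exact this _
      · rw [Finset.prod_insert hj]
    rw [hexp]
    apply Submodule.add_mem
    · apply Submodule.sum_mem
      intro j _
      apply Submodule.smul_mem
      apply hmon
      exact (Finset.card_insert_le _ _).trans (by omega)
    · apply Submodule.smul_mem
      exact hmon I (by omega)
  | zero =>
    have : (fun z : V => (w z + c) * (0 : V → ZMod 2) z) = 0 := by funext z; simp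
    rw [this]
    exact Submodule.zero_mem _
  | add g g' _ _ h1 h2 =>
    have : (fun z : V => (w z + c) * (g + g') z) =
        (fun z => (w z + c) * g z) + (fun z => (w z + c) * g' z) := by
      funext z; simp [mul_add]
    rw [this]
    exact Submodule.add_mem _ h1 h2
  | smul a g _ h1 =>
    have : (fun z : V => (w z + c) * (a • g) z) = a • (fun z => (w z + c) * g z) := by
      funext z; simp only [Pi.smul_apply, smul_eq_mul]; ring
    rw [this]
    exact Submodule.smul_mem _ _ h1

lemma pol_mono {V : Type} [AddCommGroup V] [Module (ZMod 2) V] {n : ℕ}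
    (β : Basis (Fin n) (ZMod 2) V) {k k' : ℕ} (h : k ≤ k') : Pol β k ≤ Pol β k' := by
  apply Submodule.span_mono
  apply Set.image_mono
  intro I hI
  simp only [Finset.coe_filter, Finset.mem_univ, true_and, Set.mem_setOf_eq] at hI ⊢
  omega

lemma pol_prod {V : Type} [AddCommGroup V] [Module (ZMod 2) V] {n : ℕ}
    (β : Basis (Fin n) (ZMod 2) V) : ∀ (t : ℕ) (w : Fin t → Dual (ZMod 2) V)
    (c : Fin t → ZMod 2), (fun z => ∏ j, (w j z + c j)) ∈ Pol β t := by
  intro t
  induction t with
  | zero =>
    intro w c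
    apply Submodule.subset_span
    refine ⟨∅, ?_, ?_⟩
    · simp
    · funext z; simp
  | succ t ih =>
    intro w c
    have := pol_mul β t _ (ih (fun j => w j.succ) (fun j => c j.succ)) (w 0) (c 0)
    convert this using 2 with z
    rw [Fin.prod_univ_succ]

lemma pol_finrank {V : Type} [AddCommGroup V] [Module (ZMod 2) V] {n : ℕ}
    (β : Basis (Fin n) (ZMod 2) V) (k : ℕ) :
    FiniteDimensional (ZMod 2) (Pol β k) ∧
    finrank (ZMod 2) (Pol β k) ≤ ∑ i ∈ Finset.range (k + 1), n.choose i := by
  classical
  have hP : Pol β k = Submodule.span (ZMod 2) ((((Finset.univ : Finset (Finset (Fin n))).filter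
      (fun I => I.card ≤ k)).image (fun (I : Finset (Fin n)) (z : V) => ∏ i ∈ I, β.coord i z) :
      Finset (V → ZMod 2)) : Set (V → ZMod 2)) := by
    unfold Pol
    rw [Finset.coe_image]
  constructor
  · rw [hP]; exact FiniteDimensional.span_finset _ _
  · rw [hP]
    refine (finrank_span_finset_le_card _).trans ?_
    refine Finset.card_image_le.trans ?_
    have : ((Finset.univ : Finset (Finset (Fin n))).filter (fun I => I.card ≤ k)) ⊆
        (Finset.range (k + 1)).biUnion (fun i => Finset.powersetCard i Finset.univ) := by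
      intro I hI
      simp only [Finset.mem_filter, Finset.mem_univ, true_and] at hI
      simp only [Finset.mem_biUnion, Finset.mem_range, Finset.mem_powersetCard,
        Finset.subset_univ, true_and]
      exact ⟨I.card, by omega, rfl⟩
    refine (Finset.card_le_card this).trans (Finset.card_biUnion_le.trans ?_)
    apply Finset.sum_le_sum
    intro i _
    rw [Finset.card_powersetCard, Finset.card_univ, Fintype.card_fin]

end general

end Pool.Agent.H657R3.ND
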