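import Pool.Agent.H657R3.Nd1

set_option autoImplicit false

namespace Pool.Agent.H657R3.ND

open Finset Module Pool.Agent.H657R3

section cube
variable {K : Type} [Field K] [Fintype K] [DecidableEq K] [Algebra (ZMod 2) K]

omit [Fintype K] [DecidableEq K] in
lemma charP2 : CharP K 2 := by
  haveI : CharP (ZMod 2) 2 := ZMod.charP 2
  exact charP_of_injective_algebraMap (algebraMap (ZMod 2) K).injective 2

omit [Fintype K] [DecidableEq K] in
lemma two_zero : (2 : K) = 0 := by
  haveI := charP2 (K := K)
  have := CharP.cast_eq_zero K 2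
  exact_mod_cast this

omit [Fintype K] [DecidableEq K] in
lemma add_self_K (a : K) : a + a = 0 := by
  have := two_zero (K := K)
  rw [← two_mul, this, zero_mul]

/-- a linear functional vanishing on a multiple of the field -/
lemma mul_zero_of {c : K →ₗ[ZMod 2] ZMod 2} (hc : c ≠ 0) {w : K} (hw : ∀ y, c (y * w) = 0) :
    w = 0 := by
  by_contra hne
  apply hc
  ext z
  have := hw (z / w)
  rw [div_mul_cancel₀ z hne] at this
  simpa using this

lemma z2_add_eq_zero {a b : ZMod 2} (h : a + b = 0) : a = b := by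
  revert h; revert a b; decide

/-- the bad directions -/
lemma bad_cube {c : K →ₗ[ZMod 2] ZMod 2} (hc : c ≠ 0) {u v : K} (hu0 : u ≠ 0) (hv0 : v ≠ 0)
    (hu : ∀ x, c (x ^ 2 * u + x * u ^ 2) = 0) (hv : ∀ x, c (x ^ 2 * v + x * v ^ 2) = 0) :
    u ^ 3 = v ^ 3 := by
  haveI := charP2 (K := K)
  have h1 : ∀ y, c (y * u) = c (y ^ 2 / u) := by
    intro y
    have := hu (y / u)
    rw [map_add] at this
    have e1 : (y / u) ^ 2 * u = y ^ 2 / u := by field_simp
    have e2 : (y / u) * u ^ 2 = y * u := by field_simp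
    rw [e1, e2] at this
    exact (z2_add_eq_zero this).symm
  have h2 : ∀ y, c (y * v) = c (y ^ 2 / v) := by
    intro y
    have := hv (y / v)
    rw [map_add] at this
    have e1 : (y / v) ^ 2 * v = y ^ 2 / v := by field_simp
    have e2 : (y / v) * v ^ 2 = y * v := by field_simp
    rw [e1, e2] at this
    exact (z2_add_eq_zero this).symm
  obtain ⟨s, hs⟩ : IsSquare (v / u) := FiniteField.isSquare_of_char_two (ringChar.eq K 2 ▸ rfl) _
  have h3 : ∀ y, c (y * (u + s * v)) = 0 := by
    intro y
    have e1 : y ^ 2 / u = (y * s) ^ 2 / v := by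
      have : s ^ 2 = v / u := by rw [hs]; ring
      rw [mul_pow, this]; field_simp
    have e2 : c (y * u) = c (y * s * v) := by rw [h1 y, e1, ← h2 (y * s)]
    rw [mul_add, map_add, e2, mul_assoc y s v]
    exact add_self2 _
  have h4 : u + s * v = 0 := mul_zero_of hc h3
  have h5 : u = s * v := by
    have : u + s * v + s * v = u := by rw [add_assoc, add_self_K, add_zero]
    rw [← this, h4, zero_add]
  have h6 : u ^ 2 = v ^ 3 / u := by
    have : s ^ 2 = v / u := by rw [hs]; ring
    calc u ^ 2 = (s * v) ^ 2 := by rw [← h5]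
      _ = s ^ 2 * v ^ 2 := by ring
      _ = v / u * v ^ 2 := by rw [this]
      _ = v ^ 3 / u := by ring
  calc u ^ 3 = u ^ 2 * u := by ring
    _ = v ^ 3 / u * u := by rw [h6]
    _ = v ^ 3 := div_mul_cancel₀ _ hu0

open Classical in
lemma bad_card {c : K →ₗ[ZMod 2] ZMod 2} (hc : c ≠ 0) :
    (Finset.univ.filter (fun u : K => ∀ x, c (x ^ 2 * u + x * u ^ 2) = 0)).card ≤ 4 := by
  by_cases hex : ∃ v : K, v ≠ 0 ∧ ∀ x, c (x ^ 2 * v + x * v ^ 2) = 0
  · obtain ⟨v, hv0, hv⟩ := hex
    have hsub : (Finset.univ.filter (fun u : K => ∀ x, c (x ^ 2 * u + x * u ^ 2) = 0)) ⊆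
        insert 0 (Polynomial.nthRoots 3 (v ^ 3)).toFinset := by
      intro u hu
      simp only [Finset.mem_filter, Finset.mem_univ, true_and] at hu
      rw [Finset.mem_insert]
      by_cases hu0 : u = 0
      · exact Or.inl hu0
      · right
        rw [Multiset.mem_toFinset, Polynomial.mem_nthRoots (by norm_num)]
        exact bad_cube hc hu0 hv0 hu hv
    refine (Finset.card_le_card hsub).trans ((Finset.card_insert_le _ _).trans ?_)
    have h1 := Multiset.toFinset_card_le (Polynomial.nthRoots 3 (v ^ 3))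
    have h2 := Polynomial.card_nthRoots 3 (v ^ 3)
    omega
  · push Not at hex
    have hsub : (Finset.univ.filter (fun u : K => ∀ x, c (x ^ 2 * u + x * u ^ 2) = 0)) ⊆ {0} := by
      intro u hu
      simp only [Finset.mem_filter, Finset.mem_univ, true_and] at hu
      rw [Finset.mem_singleton]
      by_contra hu0
      obtain ⟨x, hx⟩ := hex u hu0
      exact hx (hu x)
    exact (Finset.card_le_card hsub).trans (by simp)

omit [DecidableEq K] in
lemma sum_ch_additive (f : K → ZMod 2) (hf : ∀ x y, f (x + y) = f x + f y) (x0 : K)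
    (hx0 : f x0 ≠ 0) : ∑ x, ch (f x) = 0 := by
  have h1 : f x0 = 1 := (z2 (f x0)).resolve_left hx0
  have h : ∑ x, ch (f (x + x0)) = ∑ x, ch (f x) :=
    Fintype.sum_equiv (Equiv.addRight x0) _ _ (fun x => by simp)
  have h2 : ∀ x, ch (f (x + x0)) = - ch (f x) := by
    intro x
    rw [hf, ch_add, h1, ch_one]; ring
  rw [Finset.sum_congr rfl (fun x _ => h2 x), Finset.sum_neg_distrib] at h
  linarith

/-- The Fourier transform of the graph of the cube map. -/
lemma walsh_sq (a c : K →ₗ[ZMod 2] ZMod 2) (hc : c ≠ 0) :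
    (∑ x : K, ch (a x + c (x ^ 3))) ^ 2 ≤ 4 * Fintype.card K := by
  classical
  have h2 := two_zero (K := K)
  have h3 : (3 : K) = 1 := by linear_combination h2
  have e1 : (∑ x : K, ch (a x + c (x ^ 3))) ^ 2 =
      ∑ u : K, ch (a u + c (u ^ 3)) * ∑ x : K, ch (c (x ^ 2 * u + x * u ^ 2)) := by
    rw [sq, Finset.sum_mul_sum]
    have : ∀ x : K, ∑ y : K, ch (a x + c (x ^ 3)) * ch (a y + c (y ^ 3)) =
        ∑ u : K, ch (a x + c (x ^ 3)) * ch (a (u + x) + c ((u + x) ^ 3)) := by
      intro x
      exact (Fintype.sum_equiv (Equiv.addRight x) _ _ (fun u => by simp)).symm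
    rw [Finset.sum_congr rfl (fun x _ => this x), Finset.sum_comm]
    refine Finset.sum_congr rfl (fun u _ => ?_)
    rw [Finset.mul_sum]
    refine Finset.sum_congr rfl (fun x _ => ?_)
    rw [← ch_add, ← ch_add]
    congr 1
    have ex : (u + x) ^ 3 = u ^ 3 + x ^ 3 + (x ^ 2 * u + x * u ^ 2) := by
      have : (u + x) ^ 3 = u ^ 3 + x ^ 3 + 3 * (x ^ 2 * u + x * u ^ 2) := by ring
      rw [this, h3, one_mul]
    rw [ex, map_add, map_add, map_add]
    have a1 := add_self2 (a x)
    have a2 := add_self2 (c (x ^ 3))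
    linear_combination a1 + a2
  have e2 : ∀ u : K, ch (a u + c (u ^ 3)) * ∑ x : K, ch (c (x ^ 2 * u + x * u ^ 2)) ≤
      if (∀ x, c (x ^ 2 * u + x * u ^ 2) = 0) then (Fintype.card K : ℝ) else 0 := by
    intro u
    split_ifs with h
    · have : ∑ x : K, ch (c (x ^ 2 * u + x * u ^ 2)) = Fintype.card K := by
        rw [Finset.sum_congr rfl (fun x _ => by rw [h x, ch_zero])]
        simp
      rw [this]
      have hle : ch (a u + c (u ^ 3)) ≤ 1 := (le_abs_self _).trans (by rw [abs_ch])
      nlinarith [Nat.cast_nonneg (α := ℝ) (Fintype.card K)]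
    · push Not at h
      obtain ⟨x0, hx0⟩ := h
      rw [sum_ch_additive (fun x => c (x ^ 2 * u + x * u ^ 2)) ?_ x0 hx0, mul_zero]
      intro x y
      rw [← map_add]
      congr 1
      have : (x + y) ^ 2 = x ^ 2 + y ^ 2 := by
        have : (x + y) ^ 2 = x ^ 2 + y ^ 2 + 2 * (x * y) := by ring
        rw [this, h2]; ring
      rw [this]; ring
  rw [e1]
  refine (Finset.sum_le_sum (fun u _ => e2 u)).trans ?_
  rw [← Finset.sum_filter, Finset.sum_const, nsmul_eq_mul]
  apply mul_le_mul_of_nonneg_right _ (Nat.cast_nonneg _)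
  exact_mod_cast bad_card hc

lemma walsh (φ : Dual (ZMod 2) (K × K)) (hφ : φ ≠ 0) :
    |∑ x : K, ch (φ (x, x ^ 3))| ≤ 2 * Real.sqrt (Fintype.card K) := by
  let a : K →ₗ[ZMod 2] ZMod 2 := φ.comp (LinearMap.inl (ZMod 2) K K)
  let c : K →ₗ[ZMod 2] ZMod 2 := φ.comp (LinearMap.inr (ZMod 2) K K)
  have hval : ∀ x y : K, φ (x, y) = a x + c y := by
    intro x y
    have : ((x, y) : K × K) = LinearMap.inl (ZMod 2) K K x + LinearMap.inr (ZMod 2) K K y := by
      simp
    rw [this, map_add]; rfl
  have hsum : ∑ x : K, ch (φ (x, x ^ 3)) = ∑ x : K, ch (a x + c (x ^ 3)) :=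
    Finset.sum_congr rfl (fun x _ => by rw [hval])
  rw [hsum]
  by_cases hc : c = 0
  · have ha : a ≠ 0 := by
      intro ha
      apply hφ
      refine LinearMap.ext ?_
      rintro ⟨x, y⟩
      rw [hval, ha, hc]; simp
    obtain ⟨x0, hx0⟩ : ∃ x0, a x0 ≠ 0 := by
      by_contra hcon
      push Not at hcon
      exact ha (LinearMap.ext hcon)
    have : ∑ x : K, ch (a x + c (x ^ 3)) = 0 := by
      rw [hc]
      have := sum_ch_additive (fun x => a x) (fun x y => map_add a x y) x0 hx0
      simpa using this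
    rw [this, abs_zero]; positivity
  · have h := walsh_sq a c hc
    apply abs_le_of_sq_le_sq _ (by positivity)
    rw [mul_pow, Real.sq_sqrt (Nat.cast_nonneg _)]
    norm_num
    exact h

/-- The graph of the cube map. -/
def cubeSet (K : Type) [Field K] [Fintype K] [DecidableEq K] : Finset (K × K) :=
  Finset.univ.image (fun x : K => (x, x ^ 3))

omit [Algebra (ZMod 2) K] in
lemma mem_cubeSet (z : K × K) : z ∈ cubeSet K ↔ z.2 = z.1 ^ 3 := by
  simp only [cubeSet, Finset.mem_image, Finset.mem_univ, true_and]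
  constructor
  · rintro ⟨x, rfl⟩; rfl
  · intro h; exact ⟨z.1, by rw [← h]⟩

omit [Algebra (ZMod 2) K] in
lemma cubeSet_inj : Function.Injective (fun x : K => (x, x ^ 3)) := by
  intro x y h
  exact (Prod.mk.injEq _ _ _ _ ▸ h).1

omit [Algebra (ZMod 2) K] in
lemma card_cubeSet : (cubeSet K).card = Fintype.card K := by
  rw [cubeSet, Finset.card_image_of_injective _ cubeSet_inj, Finset.card_univ]

omit [Algebra (ZMod 2) K] in
lemma sum_cubeSet (f : K × K → ℝ) : ∑ z ∈ cubeSet K, f z = ∑ x : K, f (x, x ^ 3) := by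
  rw [cubeSet, Finset.sum_image (fun x _ y _ h => cubeSet_inj h)]

open Classical in
/-- Points of the graph in an affine subspace given by linear equations. -/
lemma card_affine (F : Submodule (ZMod 2) (Dual (ZMod 2) (K × K))) (z0 : K × K) :
    (((cubeSet K).filter (fun z => ∀ φ ∈ F, φ z = φ z0)).card : ℝ) *
      2 ^ finrank (ZMod 2) F ≤
      Fintype.card K + 2 ^ finrank (ZMod 2) F * (2 * Real.sqrt (Fintype.card K)) := by
  haveI : FiniteDimensional (ZMod 2) K := by
    haveI : Finite K := inferInstance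
    exact Module.Finite.of_finite
  haveI : Finite F := Module.finite_of_finite (ZMod 2)
  haveI : Fintype F := Fintype.ofFinite F
  have hcF : (Fintype.card F : ℝ) = 2 ^ finrank (ZMod 2) F := by
    have := Module.card_eq_pow_finrank (K := ZMod 2) (V := F)
    rw [this, ZMod.card]; push_cast; rfl
  have horth : ∀ z : K × K, ∑ φ : F, ch ((φ : Dual (ZMod 2) (K × K)) (z + z0)) =
      if (∀ φ ∈ F, φ z = φ z0) then (Fintype.card F : ℝ) else 0 := by
    intro z
    split_ifs with h
    · have : ∀ φ : F, ch ((φ : Dual (ZMod 2) (K × K)) (z + z0)) = 1 := by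
        intro φ
        rw [map_add, h φ φ.2, add_self2, ch_zero]
      rw [Finset.sum_congr rfl (fun φ _ => this φ)]
      simp
    · push Not at h
      obtain ⟨ψ, hψ, hne⟩ := h
      have h1 : ψ (z + z0) = 1 := by
        rw [map_add]
        rcases z2 (ψ z) with h1 | h1 <;> rcases z2 (ψ z0) with h2 | h2
        · exact absurd (h1.trans h2.symm) hne
        · rw [h1, h2]; decide
        · rw [h1, h2]; decide
        · exact absurd (h1.trans h2.symm) hne
      have hs : ∑ φ : F, ch (((φ + ⟨ψ, hψ⟩ : F) : Dual (ZMod 2) (K × K)) (z + z0)) =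
          ∑ φ : F, ch ((φ : Dual (ZMod 2) (K × K)) (z + z0)) :=
        Fintype.sum_equiv (Equiv.addRight (⟨ψ, hψ⟩ : F)) _ _ (fun φ => by simp)
      have hneg : ∀ φ : F, ch (((φ + ⟨ψ, hψ⟩ : F) : Dual (ZMod 2) (K × K)) (z + z0)) =
          - ch ((φ : Dual (ZMod 2) (K × K)) (z + z0)) := by
        intro φ
        have : ((φ + ⟨ψ, hψ⟩ : F) : Dual (ZMod 2) (K × K)) (z + z0) =
            (φ : Dual (ZMod 2) (K × K)) (z + z0) + ψ (z + z0) := rfl
        rw [this, h1, ch_add, ch_one]; ring
      rw [Finset.sum_congr rfl (fun φ _ => hneg φ), Finset.sum_neg_distrib] at hs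
      linarith
  have e1 : (((cubeSet K).filter (fun z => ∀ φ ∈ F, φ z = φ z0)).card : ℝ) * Fintype.card F =
      ∑ φ : F, ch ((φ : Dual (ZMod 2) (K × K)) z0) *
        ∑ x : K, ch ((φ : Dual (ZMod 2) (K × K)) (x, x ^ 3)) := by
    have : (((cubeSet K).filter (fun z => ∀ φ ∈ F, φ z = φ z0)).card : ℝ) * Fintype.card F =
        ∑ z ∈ cubeSet K, if (∀ φ ∈ F, φ z = φ z0) then (Fintype.card F : ℝ) else 0 := by
      rw [← Finset.sum_filter, Finset.sum_const, nsmul_eq_mul]
    rw [this, Finset.sum_congr rfl (fun z _ => (horth z).symm), Finset.sum_comm]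
    refine Finset.sum_congr rfl (fun φ _ => ?_)
    rw [← sum_cubeSet (fun z => ch ((φ : Dual (ZMod 2) (K × K)) z)), Finset.mul_sum]
    refine Finset.sum_congr rfl (fun z _ => ?_)
    rw [map_add, ch_add]; ring
  rw [← hcF, e1]
  have hterm : ∀ φ : F, ch ((φ : Dual (ZMod 2) (K × K)) z0) *
        ∑ x : K, ch ((φ : Dual (ZMod 2) (K × K)) (x, x ^ 3)) ≤
      (if φ = 0 then (Fintype.card K : ℝ) else 0) + 2 * Real.sqrt (Fintype.card K) := by
    intro φ
    split_ifs with h
    · subst h
      have : ∑ x : K, ch (((0 : F) : Dual (ZMod 2) (K × K)) (x, x ^ 3)) = Fintype.card K := by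
        simp [ch_zero]
      rw [this]
      have h1 : ch (((0 : F) : Dual (ZMod 2) (K × K)) z0) = 1 := by simp [ch_zero]
      rw [h1]
      have : 0 ≤ 2 * Real.sqrt (Fintype.card K) := by positivity
      linarith
    · have hne : (φ : Dual (ZMod 2) (K × K)) ≠ 0 := by
        intro h'
        exact h (Subtype.ext h')
      have hw := walsh (φ : Dual (ZMod 2) (K × K)) hne
      rw [zero_add]
      refine (le_abs_self _).trans ?_
      rw [abs_mul, abs_ch, one_mul]
      exact hw
  refine (Finset.sum_le_sum (fun φ _ => hterm φ)).trans ?_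
  rw [Finset.sum_add_distrib, Finset.sum_ite_eq' Finset.univ (0 : F)]
  simp

open Classical in
/-- Points of the graph in a coset of a subspace: the graph is a Sidon set. -/
lemma card_coset_sq (D : Submodule (ZMod 2) (K × K)) (z0 : K × K) (m : ℕ)
    (hD : finrank (ZMod 2) D = m) (P : Finset (K × K)) (hP : ∀ z ∈ P, z.2 = z.1 ^ 3 ∧ z - z0 ∈ D) :
    P.card ^ 2 ≤ 4 * 2 ^ m := by
  haveI : FiniteDimensional (ZMod 2) K := Module.Finite.of_finite
  have h2 := two_zero (K := K)
  haveI : Fintype D := Fintype.ofFinite D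
  have hcD : Fintype.card D = 2 ^ m := by
    have := Module.card_eq_pow_finrank (K := ZMod 2) (V := D)
    rw [this, ZMod.card, hD]
  let DF : Finset (K × K) := Finset.univ.filter (fun z => z ∈ D)
  have hDF : DF.card = 2 ^ m := by
    rw [← hcD, ← Fintype.card_coe]
    exact Fintype.card_congr (Equiv.subtypeEquivRight (fun z => by simp [DF]))
  -- ordered pairs of distinct points
  have hoff : P.offDiag.card ≤ 2 * DF.card := by
    have hmaps : ∀ p ∈ P.offDiag, p.1 - p.2 ∈ DF := by
      intro p hp
      rw [Finset.mem_offDiag] at hp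
      simp only [DF, Finset.mem_filter, Finset.mem_univ, true_and]
      have := D.sub_mem (hP _ hp.1).2 (hP _ hp.2.1).2
      simpa using this
    have hfib : ∀ d ∈ DF, (P.offDiag.filter (fun p => p.1 - p.2 = d)).card ≤ 2 := by
      intro d _
      rcases (P.offDiag.filter (fun p => p.1 - p.2 = d)).eq_empty_or_nonempty with h | ⟨p0, hp0⟩
      · rw [h]; simp
      · have hsub : (P.offDiag.filter (fun p => p.1 - p.2 = d)) ⊆ {p0, (p0.2, p0.1)} := by
          intro p hp
          simp only [Finset.mem_filter, Finset.mem_offDiag] at hp hp0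
          obtain ⟨⟨hp1, hp2, hpne⟩, hpd⟩ := hp
          obtain ⟨⟨hq1, hq2, hqne⟩, hqd⟩ := hp0
          obtain ⟨⟨x, x'⟩, ⟨y, y'⟩⟩ := p
          obtain ⟨⟨a, a'⟩, ⟨b, b'⟩⟩ := p0
          have hx : x' = x ^ 3 := (hP _ hp1).1
          have hy : y' = y ^ 3 := (hP _ hp2).1
          have ha : a' = a ^ 3 := (hP _ hq1).1
          have hb : b' = b ^ 3 := (hP _ hq2).1
          subst hx hy ha hb
          have e := hpd.trans hqd.symm
          simp only [Prod.mk_sub_mk, Prod.mk.injEq] at e
          obtain ⟨e1, e2⟩ := e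
          have hab : a - b ≠ 0 := by
            intro h
            apply hqne
            have : a = b := sub_eq_zero.mp h
            rw [this]
          -- x = a or x = b
          have hy' : y = x - (a - b) := by linear_combination -e1
          have key : (x - a) * (x - b) = 0 := by
            have h3 : (a - b) * ((x - a) * (x - b)) = 0 := by
              rw [hy'] at e2
              linear_combination e2 - (a - b) * (x - a) * (x + 2 * b) * h2
            rcases mul_eq_zero.mp h3 with h | h
            · exact absurd h hab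
            · exact h
          rw [Finset.mem_insert, Finset.mem_singleton]
          rcases mul_eq_zero.mp key with h | h
          · left
            have hxa : x = a := sub_eq_zero.mp h
            have hyb : y = b := by rw [hy', hxa]; ring
            rw [hxa, hyb]
          · right
            have hxb : x = b := sub_eq_zero.mp h
            have hya : y = a := by
              rw [hy', hxb]
              linear_combination (b - a) * h2
            rw [hxb, hya]
        exact (Finset.card_le_card hsub).trans (Finset.card_insert_le _ _)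
    have := Finset.card_le_mul_card_image_of_maps_to hmaps 2 hfib
    exact this
  rw [Finset.offDiag_card, hDF] at hoff
  rcases Nat.lt_or_ge P.card 2 with h | h
  · have h1 : P.card ≤ 1 := by omega
    have h2 : P.card ^ 2 ≤ 1 := by nlinarith
    have h3 : 1 ≤ 2 ^ m := Nat.one_le_two_pow
    omega
  · have h1 : P.card * P.card ≤ 2 * 2 ^ m + P.card := by omega
    nlinarith

end cube

end Pool.Agent.H657R3.ND
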