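import Mathlib

set_option autoImplicit false

namespace Pool.Agent.H657R3

/-- A nondeterministic linear branching program over the field with two elements, with inputs in
the vector space `V`: a directed graph with nodes `N` and edges `E`; the edge `e` goes from `src e`
to `dst e` and may be used on the input `z` if the test `q e z = b e` succeeds, where `q e` is a
linear form (`q e = 0`, `b e = 0` is an edge without a test). It has a source `s` and an accepting
node `t`. -/
structure NLBP (V N E : Type) [AddCommGroup V] [Module (ZMod 2) V] where
  src : E → N
  dst : E → N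
  q : E → Module.Dual (ZMod 2) V
  b : E → ZMod 2
  s : N
  t : N

section
variable {V N E : Type} [AddCommGroup V] [Module (ZMod 2) V]

/-- The list `es` of edges is a walk from `u` to `v`. -/
def NLBP.Walk (P : NLBP V N E) : N → List E → N → Prop
  | u, [], v => u = v
  | u, e :: es, v => P.src e = u ∧ P.Walk (P.dst e) es v

/-- The input `z` is accepted: on some walk from the source to the accepting node all tests
succeed. -/
def NLBP.Accepts (P : NLBP V N E) (z : V) : Prop :=
  ∃ es, P.Walk P.s es P.t ∧ ∀ e ∈ es, P.q e z = P.b e

/-- The span of the linear forms that are tested on the walk `es`. -/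
def NLBP.tests (P : NLBP V N E) (es : List E) : Submodule (ZMod 2) (Module.Dual (ZMod 2) V) :=
  Submodule.span (ZMod 2) {φ | ∃ e ∈ es, P.q e = φ}

/-- The span of all the linear forms that are tested on some walk from the source to `v`. -/
def NLBP.Pre (P : NLBP V N E) (v : N) : Submodule (ZMod 2) (Module.Dual (ZMod 2) V) :=
  Submodule.span (ZMod 2) {φ | ∃ es, P.Walk P.s es v ∧ ∃ e ∈ es, P.q e = φ}

/-- The node `v` is a crossing node: the codimension of `Pre v` is at most `m`, and `v` is the
source or some edge leads to `v` from a node `u` that can be reached and for which the codimension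
of `Pre u` is larger than `m`. -/
def NLBP.Crossing (P : NLBP V N E) (m : ℕ) (v : N) : Prop :=
  Module.finrank (ZMod 2) V ≤ Module.finrank (ZMod 2) (P.Pre v) + m ∧
    (v = P.s ∨ ∃ e es, P.Walk P.s es (P.src e) ∧ P.dst e = v ∧
      Module.finrank (ZMod 2) (P.Pre (P.src e)) + m < Module.finrank (ZMod 2) V)

end

end Pool.Agent.H657R3
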