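import Pool.Agent.H657R3.Nd2
import Pool.Agent.H657R3.NdDefs

set_option autoImplicit false

namespace Pool.Agent.H657R3.ND

open Finset Module Pool.Agent.H657R3

open Classical in
lemma indicator_mem_pol {V : Type} [AddCommGroup V] [Module (ZMod 2) V]
    [FiniteDimensional (ZMod 2) V] {n : ℕ}
    (β : Basis (Fin n) (ZMod 2) V) (L : Submodule (ZMod 2) (Dual (ZMod 2) V)) (k : ℕ)
    (hk : finrank (ZMod 2) L ≤ k) (r : V) :
    (fun z : V => if (∀ w ∈ L, w z = w r) then (1 : ZMod 2) else 0) ∈ Pol β k := by
  apply pol_mono β hk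
  let b := Module.finBasis (ZMod 2) L
  have h := pol_prod β (finrank (ZMod 2) L) (fun j => (b j : Dual (ZMod 2) V))
    (fun j => (b j : Dual (ZMod 2) V) r + 1)
  convert h using 2 with z
  have hone : ∀ a c : ZMod 2, a + (c + 1) = if a = c then 1 else 0 := by decide
  split_ifs with hz
  · symm
    apply Finset.prod_eq_one
    intro j _
    rw [hone, if_pos (hz _ (b j).2)]
  · symm
    by_contra hne
    apply hz
    have hall : ∀ j, (b j : Dual (ZMod 2) V) z = (b j : Dual (ZMod 2) V) r := by
      intro j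
      by_contra hj
      apply hne
      apply Finset.prod_eq_zero (Finset.mem_univ j)
      rw [hone, if_neg hj]
    intro w hw
    have hsum := b.sum_repr ⟨w, hw⟩
    have hw2 : w = ∑ i, b.repr ⟨w, hw⟩ i • (b i : Dual (ZMod 2) V) := by
      have h := congrArg (Submodule.subtype L) hsum
      rw [map_sum] at h
      simp only [map_smul, Submodule.subtype_apply] at h
      exact h.symm
    rw [hw2]
    simp only [LinearMap.sum_apply, LinearMap.smul_apply]
    exact Finset.sum_congr rfl (fun i _ => by rw [hall i])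

lemma sub_helper {V : Type} [AddCommGroup V] (u v a d : V) (h : a + d = u - v) :
    u - (v + a) = d := by
  have h1 : u = v + (a + d) := by rw [h]; abel
  rw [h1]; abel

section piece
variable {K : Type} [Field K] [Fintype K] [DecidableEq K] [Algebra (ZMod 2) K]

open Classical in
/-- The contribution of one cut edge. -/
lemma piece (h m k : ℕ) (hK : Fintype.card K = 2 ^ h)
    (hn : finrank (ZMod 2) (K × K) = 2 * h)
    (W : Submodule (ZMod 2) (Dual (ZMod 2) (K × K)))
    (hW : finrank (ZMod 2) W + m = finrank (ZMod 2) (K × K))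
    (X : Set (K × K)) (hX : ∀ x ∈ X, ∀ d ∈ W.dualCoannihilator, x + d ∈ X)
    (P : Finset (K × K)) (hPX : ∀ p ∈ P, p ∈ X)
    (F : K × K → Submodule (ZMod 2) (Dual (ZMod 2) (K × K)))
    (hF : ∀ p ∈ P, finrank (ZMod 2) ↥(F p ⊓ W) ≤ k)
    (hS : ∀ p ∈ P, ∀ y ∈ X, (∀ φ ∈ F p, φ y = φ p) → y.2 = y.1 ^ 3) :
    (P.card : ℝ) ≤ (∑ i ∈ Finset.range (k + 1), (2 * h).choose i : ℕ) *
      (2 ^ h / 2 ^ m + 2 * Real.sqrt (2 ^ h)) * (2 * Real.sqrt (2 ^ m)) := by
  haveI : FiniteDimensional (ZMod 2) K := Module.Finite.of_finite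
  set D := W.dualCoannihilator with hDdef
  have hD : finrank (ZMod 2) D = m := by
    have h1 := Subspace.finrank_add_finrank_dualCoannihilator_eq W
    have h2 : finrank (ZMod 2) W + finrank (ZMod 2) D = finrank (ZMod 2) (K × K) := h1
    omega
  let mk : K × K → (K × K) ⧸ D := fun z => Submodule.Quotient.mk z
  let Q : Finset ((K × K) ⧸ D) := P.image mk
  have hQ : ∀ c ∈ Q, ∃ p ∈ P, mk p = c := by
    intro c hc
    simpa [Q] using hc
  let r : (K × K) ⧸ D → K × K := fun c => if hc : ∃ p ∈ P, mk p = c then hc.choose else 0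
  have hr : ∀ c ∈ Q, r c ∈ P ∧ mk (r c) = c := by
    intro c hc
    have hex := hQ c hc
    simp only [r, dif_pos hex]
    exact hex.choose_spec
  -- fibers
  have hfib : ∀ c ∈ Q, ((P.filter (fun p => mk p = c)).card : ℝ) ≤ 2 * Real.sqrt (2 ^ m) := by
    intro c hc
    have h1 := card_coset_sq D (r c) m hD (P.filter (fun p => mk p = c)) (by
      intro z hz
      rw [Finset.mem_filter] at hz
      refine ⟨hS z hz.1 z (hPX z hz.1) (fun _ _ => rfl), ?_⟩
      rw [← Submodule.Quotient.eq D]
      exact hz.2.trans (hr c hc).2.symm)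
    have h2 : ((P.filter (fun p => mk p = c)).card : ℝ) ^ 2 ≤ 4 * 2 ^ m := by exact_mod_cast h1
    apply le_of_sq_le_sq _ (by positivity)
    rw [mul_pow, Real.sq_sqrt (by positivity)]
    norm_num
    exact h2
  have hPQ : (P.card : ℝ) ≤ Q.card * (2 * Real.sqrt (2 ^ m)) := by
    have h1 : (P.card : ℝ) = ∑ c ∈ Q, ((P.filter (fun p => mk p = c)).card : ℝ) := by
      have := Finset.card_eq_sum_card_image mk P
      rw [this]; push_cast; rfl
    rw [h1]
    refine (Finset.sum_le_sum hfib).trans ?_
    rw [Finset.sum_const, nsmul_eq_mul]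
  -- the covering lemma
  let b0 := Module.finBasis (ZMod 2) (K × K)
  let β := b0.reindex (finCongr hn)
  obtain ⟨hfd, hfr⟩ := pol_finrank β k
  have hQc : (Q.card : ℝ) ≤ finrank (ZMod 2) (Pol β k) *
      (2 ^ h / 2 ^ m + 2 * Real.sqrt (2 ^ h)) := by
    refine cover_lemma Q r (fun c z => if (∀ w ∈ F (r c) ⊓ W, w z = w (r c)) then 1 else 0) ?_
      (Pol β k) ?_ _ (by positivity) ?_
    · intro c _
      simp
    · intro c hc
      exact indicator_mem_pol β _ k (hF _ (hr c hc).1) (r c)
    · intro c hc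
      set F0 := F (r c) with hF0
      set A := F0.dualCoannihilator with hA
      let Qc := Q.filter (fun c' => (if (∀ w ∈ F0 ⊓ W, w (r c') = w (r c)) then
        (1 : ZMod 2) else 0) ≠ 0)
      have hQc' : ∀ c' ∈ Qc, c' ∈ Q ∧ ∃ a ∈ A, ∃ d ∈ D, a + d = r c' - r c := by
        intro c' hc'
        simp only [Qc, Finset.mem_filter, ne_eq, ite_eq_right_iff, one_ne_zero, imp_false,
          not_not] at hc'
        refine ⟨hc'.1, ?_⟩
        have : r c' - r c ∈ A ⊔ D := by
          rw [hA, hDdef, ← coann_inf, Submodule.mem_dualCoannihilator]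
          intro w hw
          rw [map_sub, hc'.2 w hw, sub_self]
        obtain ⟨a, ha, d, hd, had⟩ := Submodule.mem_sup.mp this
        exact ⟨a, ha, d, hd, had⟩
      let ya : (K × K) ⧸ D → K × K := fun c' =>
        if hc' : ∃ a ∈ A, ∃ d ∈ D, a + d = r c' - r c then r c + hc'.choose else 0
      have hya : ∀ c' ∈ Qc, ya c' - r c ∈ A ∧ r c' - ya c' ∈ D := by
        intro c' hc'
        have hex := (hQc' c' hc').2
        simp only [ya, dif_pos hex]
        obtain ⟨h1, d, hd, had⟩ := hex.choose_spec
        refine ⟨by simpa using h1, ?_⟩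
        rw [sub_helper _ _ _ _ had]; exact hd
      let I : Finset (K × K) := Finset.univ.filter (fun z => z ∈ A ⊓ D)
      let i := finrank (ZMod 2) ↥(A ⊓ D)
      have hIc : I.card = 2 ^ i := by
        haveI : Fintype ↥(A ⊓ D) := Fintype.ofFinite _
        have h1 := Module.card_eq_pow_finrank (K := ZMod 2) (V := ↥(A ⊓ D))
        rw [ZMod.card] at h1
        rw [← h1, ← Fintype.card_coe]
        exact Fintype.card_congr (Equiv.subtypeEquivRight (fun z => by simp [I]))
      have hinj : Qc.card * I.card ≤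
          ((cubeSet K).filter (fun z => ∀ φ ∈ F0, φ z = φ (r c))).card := by
        rw [← Finset.card_product]
        apply Finset.card_le_card_of_injOn (fun p => ya p.1 + p.2)
        · rintro ⟨c', δ⟩ hp
          simp only [Finset.coe_product, Set.mem_prod, Finset.mem_coe] at hp
          obtain ⟨hc', hδ⟩ := hp
          have hδ' : δ ∈ A ⊓ D := by simpa [I] using hδ
          obtain ⟨g1, g2⟩ := hya c' hc'
          simp only [Finset.coe_filter, Set.mem_setOf_eq]
          have hφ : ∀ φ ∈ F0, φ (ya c' + δ) = φ (r c) := by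
            intro φ hφ
            have e1 : φ (ya c' - r c) = 0 := (Submodule.mem_dualCoannihilator _).mp g1 φ hφ
            have e2 : φ δ = 0 := (Submodule.mem_dualCoannihilator _).mp hδ'.1 φ hφ
            rw [map_sub, sub_eq_zero] at e1
            rw [map_add, e1, e2, add_zero]
          refine ⟨?_, hφ⟩
          rw [mem_cubeSet]
          apply hS (r c) (hr c hc).1 _ _ hφ
          have hrX : r c' ∈ X := hPX _ (hr c' (hQc' c' hc').1).1
          have : ya c' + δ = r c' + (-(r c' - ya c') + δ) := by abel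
          rw [this]
          exact hX _ hrX _ (D.add_mem (D.neg_mem g2) hδ'.2)
        · rintro ⟨c1, δ1⟩ hp1 ⟨c2, δ2⟩ hp2 heq
          simp only [Finset.coe_product, Set.mem_prod, Finset.mem_coe] at hp1 hp2 heq
          have hδ1 : δ1 ∈ A ⊓ D := by simpa [I] using hp1.2
          have hδ2 : δ2 ∈ A ⊓ D := by simpa [I] using hp2.2
          have hc1 := hya c1 hp1.1
          have hc2 := hya c2 hp2.1
          have hcc : c1 = c2 := by
            rw [← (hr c1 (hQc' c1 hp1.1).1).2, ← (hr c2 (hQc' c2 hp2.1).1).2]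
            apply (Submodule.Quotient.eq D).mpr
            have : r c1 - r c2 = (r c1 - ya c1) - (r c2 - ya c2) + (δ2 - δ1) +
                ((ya c1 + δ1) - (ya c2 + δ2)) := by abel
            rw [this, heq, sub_self, add_zero]
            exact D.add_mem (D.sub_mem hc1.2 hc2.2) (D.sub_mem hδ2.2 hδ1.2)
          subst hcc
          have : δ1 = δ2 := add_left_cancel heq
          rw [this]
      have haff := card_affine F0 (r c)
      rw [hK] at haff
      set f := finrank (ZMod 2) F0 with hf
      have hdim : m ≤ f + i := by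
        have g1 := Submodule.finrank_sup_add_finrank_inf_eq A D
        have g2 := Submodule.finrank_le (A ⊔ D)
        have g3 := Subspace.finrank_add_finrank_dualCoannihilator_eq F0
        have g4 : finrank (ZMod 2) ↥(A ⊓ D) = i := rfl
        have g5 : finrank (ZMod 2) ↥F0.dualCoannihilator = finrank (ZMod 2) A := rfl
        omega
      -- final computation
      have e1 : (Qc.card : ℝ) * 2 ^ i * 2 ^ f ≤
          (2 : ℝ) ^ h + 2 ^ f * (2 * Real.sqrt (2 ^ h)) := by
        have h1 : (Qc.card : ℝ) * 2 ^ i ≤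
            (((cubeSet K).filter (fun z => ∀ φ ∈ F0, φ z = φ (r c))).card : ℝ) := by
          have := hinj
          rw [hIc] at this
          exact_mod_cast this
        have h2 := mul_le_mul_of_nonneg_right h1 (show (0 : ℝ) ≤ 2 ^ f by positivity)
        refine h2.trans ?_
        push_cast at haff
        exact haff
      have hs : 0 ≤ Real.sqrt (2 ^ h) := Real.sqrt_nonneg _
      have e2 : (Qc.card : ℝ) * 2 ^ (f + i) ≤
          (2 ^ h / 2 ^ m + 2 * Real.sqrt (2 ^ h)) * 2 ^ (f + i) := by
        have h3 : (Qc.card : ℝ) * 2 ^ (f + i) = Qc.card * 2 ^ i * 2 ^ f := by rw [pow_add]; ring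
        rw [h3]
        refine e1.trans ?_
        have h4 : (2 : ℝ) ^ h ≤ 2 ^ h / 2 ^ m * 2 ^ (f + i) := by
          rw [div_mul_eq_mul_div, le_div_iff₀ (by positivity)]
          apply mul_le_mul_of_nonneg_left _ (by positivity)
          exact pow_le_pow_right₀ (by norm_num) hdim
        have h5 : (2 : ℝ) ^ f * (2 * Real.sqrt (2 ^ h)) ≤ 2 * Real.sqrt (2 ^ h) * 2 ^ (f + i) := by
          rw [mul_comm]
          apply mul_le_mul_of_nonneg_left _ (by positivity)
          exact pow_le_pow_right₀ (by norm_num) (by omega)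
        rw [add_mul]
        exact add_le_add h4 h5
      exact le_of_mul_le_mul_right e2 (by positivity)
  have hfin : (Q.card : ℝ) ≤ ((∑ i ∈ Finset.range (k + 1), (2 * h).choose i : ℕ) : ℝ) *
      (2 ^ h / 2 ^ m + 2 * Real.sqrt (2 ^ h)) := by
    refine hQc.trans (mul_le_mul_of_nonneg_right ?_ (by positivity))
    exact_mod_cast hfr
  refine hPQ.trans ?_
  exact mul_le_mul_of_nonneg_right hfin (by positivity)

end piece

end Pool.Agent.H657R3.ND
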