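import Pool.Agent.H657R3.Nd3

set_option autoImplicit false

namespace Pool.Agent.H657R3.ND

open Finset Module Pool.Agent.H657R3

section walks
variable {V N E : Type} [AddCommGroup V] [Module (ZMod 2) V] (P : NLBP V N E)

lemma walk_append : ∀ (es es' : List E) (u v w : N), P.Walk u es v → P.Walk v es' w →
    P.Walk u (es ++ es') w := by
  intro es
  induction es with
  | nil =>
    intro es' u v w h1 h2
    have : u = v := h1
    subst this
    exact h2
  | cons e es ih =>
    intro es' u v w h1 h2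
    exact ⟨h1.1, ih es' _ v w h1.2 h2⟩

lemma walk_single (e : E) : P.Walk (P.src e) [e] (P.dst e) := ⟨rfl, rfl⟩

lemma walk_concat : ∀ (es : List E) (e : E) (u v : N), P.Walk u (es ++ [e]) v →
    P.Walk u es (P.src e) ∧ P.dst e = v := by
  intro es
  induction es with
  | nil =>
    intro e u v h
    exact ⟨h.1.symm, h.2⟩
  | cons e' es ih =>
    intro e u v h
    have := ih e _ v h.2
    exact ⟨⟨h.1, this.1⟩, this.2⟩

def Short (m : ℕ) (v : N) : Prop :=
  v = P.t ∨ finrank (ZMod 2) V ≤ finrank (ZMod 2) (P.Pre v) + m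

lemma first_short (m : ℕ) : ∀ (es : List E) (u : N), P.Walk u es P.t →
    ∃ es0 es1 v, es = es0 ++ es1 ∧ P.Walk u es0 v ∧ P.Walk v es1 P.t ∧ Short P m v ∧
      (es0 = [] ∨ ∃ es0' e, es0 = es0' ++ [e] ∧ ¬ Short P m (P.src e)) := by
  intro es
  induction es with
  | nil =>
    intro u h
    exact ⟨[], [], u, rfl, rfl, h, Or.inl h, Or.inl rfl⟩
  | cons e es ih =>
    intro u h
    by_cases hs : Short P m u
    · exact ⟨[], e :: es, u, rfl, rfl, h, hs, Or.inl rfl⟩
    · obtain ⟨es0, es1, v, h1, h2, h3, h4, h5⟩ := ih _ h.2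
      refine ⟨e :: es0, es1, v, ?_, ⟨h.1, h2⟩, h3, h4, Or.inr ?_⟩
      · rw [h1]; rfl
      · rcases h5 with h5 | ⟨es0', e', h5, h6⟩
        · refine ⟨[], e, ?_, ?_⟩
          · rw [h5]; rfl
          · rw [h.1]; exact hs
        · exact ⟨e :: es0', e', by rw [h5]; rfl, h6⟩

lemma pre_le (e : E) : P.Pre (P.src e) ≤ P.Pre (P.dst e) := by
  apply Submodule.span_mono
  rintro φ ⟨es, h1, e', he', rfl⟩
  exact ⟨es ++ [e], walk_append P _ _ _ _ _ h1 (walk_single P e), e', by simp [he'], rfl⟩

lemma q_mem (e : E) (es : List E) (h : P.Walk P.s es (P.src e)) : P.q e ∈ P.Pre (P.dst e) :=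
  Submodule.subset_span ⟨es ++ [e], walk_append P _ _ _ _ _ h (walk_single P e), e, by simp, rfl⟩

end walks

section final
variable {K : Type} [Field K] [Fintype K] [DecidableEq K] [Algebra (ZMod 2) K] {N E : Type}

lemma cut_piece (P : NLBP (K × K) N E) (h m k : ℕ) (hK : Fintype.card K = 2 ^ h)
    (hn : finrank (ZMod 2) (K × K) = 2 * h) (v : N)
    (W0 : Submodule (ZMod 2) (Dual (ZMod 2) (K × K)))
    (hW0 : finrank (ZMod 2) W0 + m ≤ 2 * h) (hWv : W0 ≤ P.Pre v) (hv : Short P m v)
    (hre : finrank (ZMod 2) (K × K) ≤ finrank (ZMod 2) (P.Pre v) + m →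
      ∀ es, P.Walk v es P.t → finrank (ZMod 2) ↥(P.tests es ⊓ P.Pre v) ≤ k)
    (X : Set (K × K)) (hX : ∀ x ∈ X, ∀ d ∈ W0.dualCoannihilator, x + d ∈ X)
    (hXacc : ∀ y ∈ X, ∀ es, P.Walk v es P.t → (∀ e ∈ es, P.q e y = P.b e) → P.Accepts y)
    (hacc : ∀ z : K × K, P.Accepts z → z.2 = z.1 ^ 3)
    (Q : Finset (K × K)) (hQX : ∀ p ∈ Q, p ∈ X)
    (hQ : ∀ p ∈ Q, ∃ es, P.Walk v es P.t ∧ ∀ e ∈ es, P.q e p = P.b e) :
    (Q.card : ℝ) ≤ (∑ i ∈ Finset.range (k + 1), (2 * h).choose i : ℕ) *
      (2 ^ h / 2 ^ m + 2 * Real.sqrt (2 ^ h)) * (2 * Real.sqrt (2 ^ m)) := by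
  classical
  haveI : FiniteDimensional (ZMod 2) K := Module.Finite.of_finite
  have hdual : finrank (ZMod 2) (Dual (ZMod 2) (K × K)) = 2 * h := by
    rw [Subspace.dual_finrank_eq, hn]
  by_cases hvt : v = P.t
  · -- the accepting node
    obtain ⟨W, hW1, -, hW3⟩ := exists_between' (2 * h - m) (2 * h - m - finrank (ZMod 2) W0) W0 ⊤
      le_top (by omega) (by rw [finrank_top, hdual]; omega)
    refine piece h m k hK hn W (by rw [hW3, hn]; omega) X ?_ Q hQX (fun _ => ⊥) ?_ ?_
    · intro x hx d hd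
      exact hX x hx d (Submodule.dualCoannihilator_anti hW1 hd)
    · intro p _
      rw [bot_inf_eq, finrank_bot]; omega
    · intro p _ y hy _
      exact hacc _ (hXacc y hy [] hvt (by simp))
  · have hv' : finrank (ZMod 2) (K × K) ≤ finrank (ZMod 2) (P.Pre v) + m := by
      rcases hv with h' | h'
      · exact absurd h' hvt
      · exact h'
    obtain ⟨W, hW1, hW2, hW3⟩ := exists_between' (2 * h - m) (2 * h - m - finrank (ZMod 2) W0) W0
      (P.Pre v) hWv (by omega) (by omega)
    let F : K × K → Submodule (ZMod 2) (Dual (ZMod 2) (K × K)) := fun p =>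
      if hp : ∃ es, P.Walk v es P.t ∧ ∀ e ∈ es, P.q e p = P.b e then P.tests hp.choose else ⊥
    refine piece h m k hK hn W (by rw [hW3, hn]; omega) X ?_ Q hQX F ?_ ?_
    · intro x hx d hd
      exact hX x hx d (Submodule.dualCoannihilator_anti hW1 hd)
    · intro p hp
      have hex := hQ p hp
      have hFp : F p = P.tests hex.choose := by simp only [F, dif_pos hex]
      rw [hFp]
      have h1 := hre hv' _ hex.choose_spec.1
      refine le_trans (Submodule.finrank_mono ?_) h1
      exact inf_le_inf_left _ hW2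
    · intro p hp y hy hφ
      have hex := hQ p hp
      simp only [F, dif_pos hex] at hφ
      apply hacc
      apply hXacc y hy hex.choose hex.choose_spec.1
      intro e he
      rw [← hex.choose_spec.2 e he]
      exact hφ (P.q e) (Submodule.subset_span ⟨e, he, rfl⟩)

lemma main_count [Fintype E] (P : NLBP (K × K) N E) (h m k : ℕ) (hK : Fintype.card K = 2 ^ h)
    (hn : finrank (ZMod 2) (K × K) = 2 * h) (hm : m ≤ 2 * h)
    (hacc : ∀ z : K × K, P.Accepts z → z.2 = z.1 ^ 3)
    (hre : ∀ v, P.Crossing m v → ∀ es, P.Walk v es P.t →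
      finrank (ZMod 2) ↥(P.tests es ⊓ P.Pre v) ≤ k) (A : Finset (K × K))
    (hA : ∀ z ∈ A, P.Accepts z) :
    (A.card : ℝ) ≤ (Fintype.card E + 1) *
      ((∑ i ∈ Finset.range (k + 1), (2 * h).choose i : ℕ) *
      (2 ^ h / 2 ^ m + 2 * Real.sqrt (2 ^ h)) * (2 * Real.sqrt (2 ^ m))) := by
  classical
  haveI : FiniteDimensional (ZMod 2) K := Module.Finite.of_finite
  set C : ℝ := ((∑ i ∈ Finset.range (k + 1), (2 * h).choose i : ℕ) *
      (2 ^ h / 2 ^ m + 2 * Real.sqrt (2 ^ h)) * (2 * Real.sqrt (2 ^ m))) with hC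
  have hC0 : 0 ≤ C := by positivity
  let cond : Option E → K × K → Prop := fun c z => match c with
    | none => Short P m P.s ∧ ∃ es, P.Walk P.s es P.t ∧ ∀ e ∈ es, P.q e z = P.b e
    | some e => (¬ Short P m (P.src e) ∧ Short P m (P.dst e)) ∧
        (∃ es, P.Walk P.s es (P.src e) ∧ (∀ e' ∈ es, P.q e' z = P.b e') ∧ P.q e z = P.b e) ∧
        ∃ es, P.Walk (P.dst e) es P.t ∧ ∀ e' ∈ es, P.q e' z = P.b e'
  have hcover : A ⊆ (Finset.univ : Finset (Option E)).biUnion
      (fun c => Finset.univ.filter (fun z => cond c z)) := by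
    intro z hz
    obtain ⟨es, hes, hus⟩ := hA z hz
    obtain ⟨es0, es1, v, h1, h2, h3, h4, h5⟩ := first_short P m es P.s hes
    subst h1
    simp only [Finset.mem_biUnion, Finset.mem_univ, true_and, Finset.mem_filter]
    rcases h5 with h5 | ⟨es0', e, h5, h6⟩
    · subst h5
      have hv : P.s = v := h2
      subst hv
      exact ⟨none, h4, es1, h3, fun e he => hus e (by simpa using he)⟩
    · subst h5
      obtain ⟨g1, g2⟩ := walk_concat P es0' e _ _ h2
      subst g2
      refine ⟨some e, ⟨h6, h4⟩, ⟨es0', g1, fun e' he' => hus e' (by simp [he']),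
        hus e (by simp)⟩, es1, h3, fun e' he' => hus e' (by simp [he'])⟩
  have hempty : ∀ (p : K × K → Prop) (dp : DecidablePred p), (∀ z, ¬ p z) →
      (((@Finset.filter _ p dp Finset.univ).card : ℕ) : ℝ) ≤ C := by
    intro p dp hp
    have : @Finset.filter _ p dp Finset.univ = ∅ := by
      apply Finset.filter_false_of_mem
      intro z _
      exact hp z
    rw [this]
    simpa using hC0
  have hpiece : ∀ c : Option E,
      ((Finset.univ.filter (fun z => cond c z)).card : ℝ) ≤ C := by
    intro c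
    rcases c with _ | e
    · by_cases hs : Short P m P.s
      · refine cut_piece P h m k hK hn P.s ⊥ (by rw [finrank_bot]; omega) bot_le hs ?_ Set.univ
          (fun _ _ _ _ => Set.mem_univ _) ?_ hacc _ (fun _ _ => Set.mem_univ _) ?_
        · intro hd es hes
          exact hre P.s ⟨hd, Or.inl rfl⟩ es hes
        · intro y _ es hes hu
          exact ⟨es, hes, hu⟩
        · intro p hp
          simp only [Finset.mem_filter, Finset.mem_univ, true_and, cond] at hp
          exact hp.2
      · exact hempty _ _ (fun z hz => hs hz.1)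
    · by_cases hs : (¬ Short P m (P.src e) ∧ Short P m (P.dst e)) ∧
          ∃ es, P.Walk P.s es (P.src e)
      · obtain ⟨⟨hs1, hs2⟩, esr, hesr⟩ := hs
        have hlt : finrank (ZMod 2) (P.Pre (P.src e)) + m < finrank (ZMod 2) (K × K) := by
          unfold Short at hs1
          push Not at hs1
          exact hs1.2
        refine cut_piece P h m k hK hn (P.dst e)
          (P.Pre (P.src e) ⊔ Submodule.span (ZMod 2) {P.q e}) ?_ ?_ hs2 ?_
          {z | ∃ es, P.Walk P.s es (P.src e) ∧ (∀ e' ∈ es, P.q e' z = P.b e') ∧ P.q e z = P.b e}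
          ?_ ?_ hacc _ ?_ ?_
        · have g2 := Submodule.finrank_add_le_finrank_add_finrank (P.Pre (P.src e))
            (Submodule.span (ZMod 2) {P.q e})
          have g3 : finrank (ZMod 2) ↥(Submodule.span (ZMod 2) {P.q e}) ≤ 1 :=
            (finrank_span_le_card ({P.q e} : Set (Dual (ZMod 2) (K × K)))).trans (by simp)
          omega
        · apply sup_le (pre_le P e)
          rw [Submodule.span_singleton_le_iff_mem]
          exact q_mem P e esr hesr
        · intro hd es hes
          exact hre (P.dst e) ⟨hd, Or.inr ⟨e, esr, hesr, rfl, hlt⟩⟩ es hes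
        · rintro x ⟨es, g1, g2, g3⟩ d hd
          rw [Submodule.mem_dualCoannihilator] at hd
          refine ⟨es, g1, ?_, ?_⟩
          · intro e' he'
            have : P.q e' d = 0 := hd _ (Submodule.mem_sup_left
              (Submodule.subset_span ⟨es, g1, e', he', rfl⟩))
            rw [map_add, this, add_zero]
            exact g2 e' he'
          · have : P.q e d = 0 := hd _ (Submodule.mem_sup_right
              (Submodule.mem_span_singleton_self _))
            rw [map_add, this, add_zero]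
            exact g3
        · rintro y ⟨es, g1, g2, g3⟩ es' g4 g5
          refine ⟨es ++ (e :: es'), walk_append P _ _ _ _ _ g1 ⟨rfl, g4⟩, ?_⟩
          intro e' he'
          rw [List.mem_append, List.mem_cons] at he'
          rcases he' with h' | h' | h'
          · exact g2 e' h'
          · rw [h']; exact g3
          · exact g5 e' h'
        · intro p hp
          simp only [Finset.mem_filter, Finset.mem_univ, true_and, cond] at hp
          exact hp.2.1
        · intro p hp
          simp only [Finset.mem_filter, Finset.mem_univ, true_and, cond] at hp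
          exact hp.2.2
      · refine hempty _ _ (fun z hz => hs ?_)
        obtain ⟨h1, ⟨es, h2, _⟩, _⟩ := hz
        exact ⟨h1, es, h2⟩
  have hcard : (A.card : ℝ) ≤ ∑ c : Option E,
      ((Finset.univ.filter (fun z => cond c z)).card : ℝ) := by
    have := (Finset.card_le_card hcover).trans Finset.card_biUnion_le
    exact_mod_cast this
  refine hcard.trans ((Finset.sum_le_sum (fun c _ => hpiece c)).trans ?_)
  rw [Finset.sum_const, Finset.card_univ, Fintype.card_option, nsmul_eq_mul]
  push_cast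
  exact le_refl _

theorem main_bound [Fintype E] (P : NLBP (K × K) N E) (h m k : ℕ) (hK : Fintype.card K = 2 ^ h)
    (hm : 2 * m ≤ h)
    (hacc : ∀ z : K × K, P.Accepts z → z.2 = z.1 ^ 3)
    (hre : ∀ v, P.Crossing m v → ∀ es, P.Walk v es P.t →
      finrank (ZMod 2) ↥(P.tests es ⊓ P.Pre v) ≤ k) :
    {z : K × K | P.Accepts z}.ncard ^ 2 * 2 ^ m ≤
      36 * (2 ^ h * ((Fintype.card E + 1) *
        ∑ i ∈ Finset.range (k + 1), (2 * h).choose i)) ^ 2 := by
  classical
  haveI : FiniteDimensional (ZMod 2) K := Module.Finite.of_finite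
  have hfK : finrank (ZMod 2) K = h := by
    have h1 := Module.card_eq_pow_finrank (K := ZMod 2) (V := K)
    rw [ZMod.card, hK] at h1
    exact (Nat.pow_right_injective (le_refl 2) h1).symm
  have hn : finrank (ZMod 2) (K × K) = 2 * h := by
    rw [Module.finrank_prod, hfK]; ring
  let B : Finset (K × K) := Finset.univ.filter (fun z => P.Accepts z)
  have hB : {z : K × K | P.Accepts z}.ncard = B.card := by
    rw [Set.ncard_eq_toFinset_card']
    congr 1
    ext z
    simp [B]
  have hc := main_count P h m k hK hn (by omega) hacc hre B (fun z hz => by simpa [B] using hz)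
  rw [hB]
  set S : ℕ := ∑ i ∈ Finset.range (k + 1), (2 * h).choose i with hS
  set A : ℝ := (Fintype.card E + 1) * (S : ℝ) with hA
  have hA0 : 0 ≤ A := by positivity
  have hsq : Real.sqrt (2 ^ h) ≤ 2 ^ h / 2 ^ m := by
    rw [Real.sqrt_le_left (by positivity), div_pow, le_div_iff₀ (by positivity)]
    have e1 : ((2 : ℝ) ^ m) ^ 2 = 2 ^ (2 * m) := by rw [← pow_mul, mul_comm]
    rw [e1, sq]
    apply mul_le_mul_of_nonneg_left _ (by positivity)
    exact pow_le_pow_right₀ (by norm_num) hm
  set r := Real.sqrt (2 ^ m) with hr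
  have hr2 : r * r = 2 ^ m := Real.mul_self_sqrt (by positivity)
  have hr0 : 0 < r := Real.sqrt_pos.mpr (by positivity)
  have h1 : (B.card : ℝ) ≤ A * (3 * (2 ^ h / 2 ^ m)) * (2 * r) := by
    refine hc.trans ?_
    have : (Fintype.card E + 1) * ((S : ℝ) * (2 ^ h / 2 ^ m + 2 * Real.sqrt (2 ^ h)) * (2 * r)) =
        A * (2 ^ h / 2 ^ m + 2 * Real.sqrt (2 ^ h)) * (2 * r) := by rw [hA]; ring
    rw [this]
    apply mul_le_mul_of_nonneg_right _ (by positivity)
    apply mul_le_mul_of_nonneg_left _ hA0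
    linarith
  have h2 : (B.card : ℝ) * (r * r) ≤ 6 * (2 ^ h * A) * r := by
    rw [hr2]
    have h4 := mul_le_mul_of_nonneg_right h1 (show (0 : ℝ) ≤ 2 ^ m by positivity)
    refine h4.trans (le_of_eq ?_)
    field_simp
    ring
  have h5 : (B.card : ℝ) * r ≤ 6 * (2 ^ h * A) := by
    rw [← mul_assoc] at h2
    exact le_of_mul_le_mul_right h2 hr0
  have h6 : (B.card : ℝ) ^ 2 * 2 ^ m ≤ 36 * (2 ^ h * A) ^ 2 := by
    rw [← hr2]
    have h60 : 0 ≤ (B.card : ℝ) * r := by positivity
    have h7 := mul_self_le_mul_self h60 h5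
    nlinarith
  have h7 : ((B.card ^ 2 * 2 ^ m : ℕ) : ℝ) ≤
      ((36 * (2 ^ h * ((Fintype.card E + 1) * S)) ^ 2 : ℕ) : ℝ) := by
    push_cast
    rw [hA] at h6
    exact h6
  exact_mod_cast h7

end final

end Pool.Agent.H657R3.ND
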