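import Pool.Agent.H657R3.Nd4

set_option autoImplicit false

namespace Pool.Agent.H657R3.UD

open Finset Module Pool.Agent.H657R3 Pool.Agent.H657R3.ND

section walks
variable {V N E : Type} [AddCommGroup V] [Module (ZMod 2) V] (P : NLBP V N E)

lemma tests_nil : P.tests [] = ⊥ := by
  unfold NLBP.tests
  simp

lemma tests_concat (es : List E) (e : E) :
    P.tests (es ++ [e]) = P.tests es ⊔ Submodule.span (ZMod 2) {P.q e} := by
  unfold NLBP.tests
  rw [← Submodule.span_union]
  congr 1
  ext φ
  simp only [List.mem_append, List.mem_singleton, Set.mem_setOf_eq, Set.mem_union,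
    Set.mem_singleton_iff]
  constructor
  · rintro ⟨e', h1 | h1, rfl⟩
    · exact Or.inl ⟨e', h1, rfl⟩
    · right; rw [h1]
  · rintro (⟨e', h1, rfl⟩ | h1)
    · exact ⟨e', Or.inl h1, rfl⟩
    · exact ⟨e, Or.inr rfl, h1.symm⟩

lemma tests_append (es es' : List E) : P.tests (es ++ es') = P.tests es ⊔ P.tests es' := by
  unfold NLBP.tests
  rw [← Submodule.span_union]
  congr 1
  ext φ
  simp only [List.mem_append, Set.mem_setOf_eq, Set.mem_union]
  constructor
  · rintro ⟨e', h1 | h1, rfl⟩
    · exact Or.inl ⟨e', h1, rfl⟩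
    · exact Or.inr ⟨e', h1, rfl⟩
  · rintro (⟨e', h1, rfl⟩ | ⟨e', h1, rfl⟩)
    · exact ⟨e', Or.inl h1, rfl⟩
    · exact ⟨e', Or.inr h1, rfl⟩

lemma walk_split : ∀ (es es' : List E) (u w : N), P.Walk u (es ++ es') w →
    ∃ v, P.Walk u es v ∧ P.Walk v es' w := by
  intro es
  induction es with
  | nil => intro es' u w h; exact ⟨u, rfl, h⟩
  | cons e es ih =>
    intro es' u w h
    obtain ⟨v, h1, h2⟩ := ih es' _ w h.2
    exact ⟨v, ⟨h.1, h1⟩, h2⟩

lemma walk_unique : ∀ (es : List E) (u v w : N), P.Walk u es v → P.Walk u es w → v = w := by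
  intro es
  induction es with
  | nil => intro u v w h1 h2; exact h1.symm.trans h2
  | cons e es ih => intro u v w h1 h2; exact ih _ v w h1.2 h2.2

variable [FiniteDimensional (ZMod 2) V]

/-- the rank of a prefix -/
noncomputable def rk (es : List E) : ℕ := finrank (ZMod 2) (P.tests es)

lemma rk_nil : rk P ([] : List E) = 0 := by
  unfold rk; rw [tests_nil, finrank_bot]

lemma rk_concat_le (es : List E) (e : E) : rk P (es ++ [e]) ≤ rk P es + 1 := by
  unfold rk
  rw [tests_concat]
  have g2 := Submodule.finrank_add_le_finrank_add_finrank (P.tests es)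
    (Submodule.span (ZMod 2) {P.q e})
  have g3 : finrank (ZMod 2) ↥(Submodule.span (ZMod 2) {P.q e}) ≤ 1 :=
    (finrank_span_le_card ({P.q e} : Set (Dual (ZMod 2) V))).trans (by simp)
  omega

/-- The first prefix of rank `r`. -/
lemma exists_prefix (r : ℕ) (es : List E) (h : r ≤ rk P es) :
    ∃ j, j ≤ es.length ∧ rk P (es.take j) = r ∧ ∀ i < j, rk P (es.take i) < r := by
  classical
  have hex : ∃ j, r ≤ rk P (es.take j) := ⟨es.length, by rwa [List.take_length]⟩
  refine ⟨Nat.find hex, ?_, ?_, ?_⟩
  · exact Nat.find_min' hex (by rwa [List.take_length])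
  · have h1 := Nat.find_spec hex
    apply le_antisymm _ h1
    by_contra hcon
    push Not at hcon
    have hpos : Nat.find hex ≠ 0 := by
      intro h0
      rw [h0, List.take_zero, rk_nil] at hcon
      omega
    obtain ⟨i, hi⟩ := Nat.exists_eq_succ_of_ne_zero hpos
    have h2 := Nat.find_min hex (show i < Nat.find hex by omega)
    push Not at h2
    have hlen : i < es.length := by
      have := Nat.find_min' hex (show r ≤ rk P (es.take es.length) by rwa [List.take_length])
      omega
    have h3 : es.take (i + 1) = es.take i ++ [es[i]] := by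
      rw [List.take_succ, List.getElem?_eq_getElem hlen]
      rfl
    rw [hi, Nat.succ_eq_add_one, h3] at hcon
    have := rk_concat_le P (es.take i) es[i]
    omega
  · intro i hi
    have := Nat.find_min hex hi
    push Not at this
    exact this

end walks

end Pool.Agent.H657R3.UD
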