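import Pool.Agent.H657R3.Ud1

set_option autoImplicit false

namespace Pool.Agent.H657R3.UD

open Finset Module Pool.Agent.H657R3 Pool.Agent.H657R3.ND

section
variable {K : Type} [Field K] [Fintype K] [DecidableEq K] [Algebra (ZMod 2) K] {N E : Type}

lemma usable_of_agree (P : NLBP (K × K) N E) (es : List E) (y z : K × K)
    (h : ∀ φ ∈ P.tests es, φ y = φ z) (hz : ∀ e ∈ es, P.q e z = P.b e) :
    ∀ e ∈ es, P.q e y = P.b e := by
  intro e he
  rw [← hz e he]
  exact h _ (Submodule.subset_span ⟨e, he, rfl⟩)

/-- Accepting walks test almost everything. -/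
lemma rank_large (P : NLBP (K × K) N E) (h : ℕ) (hn : finrank (ZMod 2) (K × K) = 2 * h)
    (hacc : ∀ z : K × K, P.Accepts z → z.2 = z.1 ^ 3) (z : K × K) (es : List E)
    (hes : P.Walk P.s es P.t) (hus : ∀ e ∈ es, P.q e z = P.b e) :
    2 * h ≤ finrank (ZMod 2) (P.tests es) + 2 := by
  classical
  haveI : FiniteDimensional (ZMod 2) K := Module.Finite.of_finite
  set D := (P.tests es).dualCoannihilator with hD
  have hdim : finrank (ZMod 2) (P.tests es) + finrank (ZMod 2) D = 2 * h := by
    have := Subspace.finrank_add_finrank_dualCoannihilator_eq (P.tests es)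
    rw [← hn, ← this]
  set d := finrank (ZMod 2) D with hd
  let Q : Finset (K × K) := Finset.univ.filter (fun y => y - z ∈ D)
  have hQ : Q.card = 2 ^ d := by
    haveI : Fintype D := Fintype.ofFinite D
    have h1 := Module.card_eq_pow_finrank (K := ZMod 2) (V := D)
    rw [ZMod.card] at h1
    rw [← hd] at h1
    rw [← h1, ← Fintype.card_coe]
    refine Fintype.card_congr ⟨fun y => ⟨y.1 - z, (Finset.mem_filter.mp y.2).2⟩,
      fun d => ⟨d.1 + z, Finset.mem_filter.mpr ⟨Finset.mem_univ _, by simp⟩⟩, ?_, ?_⟩
    · intro y; simp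
    · intro d; simp
  have hsq := card_coset_sq D z d rfl Q (by
    intro y hy
    have hy' : y - z ∈ D := by simpa [Q] using hy
    refine ⟨?_, hy'⟩
    apply hacc
    refine ⟨es, hes, usable_of_agree P es y z ?_ hus⟩
    intro φ hφ
    have := (Submodule.mem_dualCoannihilator _).mp hy' φ hφ
    rw [map_sub, sub_eq_zero] at this
    exact this)
  rw [hQ] at hsq
  have hd2 : d ≤ 2 := by
    by_contra hcon
    push Not at hcon
    have h1 : 2 ^ 3 ≤ 2 ^ d := Nat.pow_le_pow_right (by norm_num) hcon
    nlinarith
  omega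

lemma exists_common (A B : Submodule (ZMod 2) (Dual (ZMod 2) (K × K))) (hAB : A ⊓ B = ⊥)
    (z z0 : K × K) : ∃ y, (∀ φ ∈ A, φ y = φ z) ∧ ∀ φ ∈ B, φ y = φ z0 := by
  haveI : FiniteDimensional (ZMod 2) K := Module.Finite.of_finite
  have h1 : z0 - z ∈ A.dualCoannihilator ⊔ B.dualCoannihilator := by
    rw [← coann_inf, hAB, Submodule.dualCoannihilator_bot]
    exact Submodule.mem_top
  obtain ⟨a, ha, b, hb, hab⟩ := Submodule.mem_sup.mp h1
  refine ⟨z + a, ?_, ?_⟩
  · intro φ hφ
    rw [map_add, (Submodule.mem_dualCoannihilator _).mp ha φ hφ, add_zero]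
  · intro φ hφ
    have h2 : z + a = z0 - b := by
      have : z0 = z + (a + b) := by rw [hab]; abel
      rw [this]; abel
    rw [h2, map_sub, (Submodule.mem_dualCoannihilator _).mp hb φ hφ, sub_zero]

lemma count_acc [Fintype N] (P : NLBP (K × K) N E) (h m : ℕ) (hK : Fintype.card K = 2 ^ h)
    (hn : finrank (ZMod 2) (K × K) = 2 * h) (hm2 : 2 ≤ m) (hmh : m ≤ 2 * h)
    (hacc : ∀ z : K × K, P.Accepts z → z.2 = z.1 ^ 3)
    (a : ℕ) (hun : ∀ (z : K × K) (L : Finset (List E)),
      (∀ es ∈ L, P.Walk P.s es P.t ∧ ∀ e ∈ es, P.q e z = P.b e) → L.card ≤ a)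
    (hro : ∀ v es es', P.Walk P.s es v → P.Walk v es' P.t →
      finrank (ZMod 2) (P.tests es) + m = finrank (ZMod 2) (K × K) →
      P.tests es ⊓ P.tests es' = ⊥) (A : Finset (K × K)) (hA : ∀ z ∈ A, P.Accepts z) :
    (A.card : ℝ) ≤ Fintype.card N *
      ((4 * 2 ^ h / 2 ^ m + 2 * Real.sqrt (2 ^ h)) * (a * (2 * Real.sqrt (2 ^ m)))) := by
  classical
  haveI : FiniteDimensional (ZMod 2) K := Module.Finite.of_finite
  set C : ℝ := (4 * 2 ^ h / 2 ^ m + 2 * Real.sqrt (2 ^ h)) * (a * (2 * Real.sqrt (2 ^ m)))
    with hC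
  have hC0 : 0 ≤ C := by positivity
  -- the decomposition of the accepting walk
  have hdec : ∀ z : {z : K × K // P.Accepts z}, ∃ (es es' : List E) (v : N),
      P.Walk P.s es v ∧ P.Walk v es' P.t ∧ (∀ e ∈ es, P.q e z.1 = P.b e) ∧
      (∀ e ∈ es', P.q e z.1 = P.b e) ∧
      finrank (ZMod 2) (P.tests es) + m = 2 * h ∧ m ≤ finrank (ZMod 2) (P.tests es') + 2 := by
    rintro ⟨z, hz⟩
    obtain ⟨es, h1, h2⟩ := hz
    have h3 := rank_large P h hn hacc z es h1 h2
    obtain ⟨j, hj1, hj2, _⟩ := exists_prefix P (2 * h - m) es (by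
      show 2 * h - m ≤ finrank (ZMod 2) (P.tests es)
      omega)
    obtain ⟨v, h4, h5⟩ := walk_split P (es.take j) (es.drop j) P.s P.t
      (by rw [List.take_append_drop]; exact h1)
    refine ⟨es.take j, es.drop j, v, h4, h5, ?_, ?_, ?_, ?_⟩
    · intro e he; exact h2 e (List.mem_of_mem_take he)
    · intro e he; exact h2 e (List.mem_of_mem_drop he)
    · have : finrank (ZMod 2) (P.tests (es.take j)) = 2 * h - m := hj2
      rw [this]; omega
    · have e1 : P.tests es = P.tests (es.take j) ⊔ P.tests (es.drop j) := by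
        rw [← tests_append, List.take_append_drop]
      have e2 := Submodule.finrank_add_le_finrank_add_finrank (P.tests (es.take j))
        (P.tests (es.drop j))
      rw [← e1] at e2
      have e3 : finrank (ZMod 2) (P.tests (es.take j)) = 2 * h - m := hj2
      omega
  choose W W' v g1 g2 g3 g4 g5 g6 using hdec
  let A' : Finset {z : K × K // P.Accepts z} := Finset.univ.filter (fun z => z.1 ∈ A)
  have hAA : A.card = A'.card := by
    symm
    apply Finset.card_bij (fun z _ => z.1)
    · intro z hz; simpa [A'] using hz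
    · intro z _ z' _ hzz; exact Subtype.ext hzz
    · intro z hz; exact ⟨⟨z, hA z hz⟩, by simpa [A'] using hz, rfl⟩
  have hfib : ∀ u : N, ((A'.filter (fun z => v z = u)).card : ℝ) ≤ C := by
    intro u
    rcases (A'.filter (fun z => v z = u)).eq_empty_or_nonempty with hemp | ⟨z0, hz0⟩
    · rw [hemp]; simpa using hC0
    · rw [Finset.mem_filter] at hz0
      set B := A'.filter (fun z => v z = u) with hB
      have hcom : ∀ z : {z : K × K // P.Accepts z}, v z = u →
          ∃ y, (∀ φ ∈ P.tests (W z), φ y = φ z.1) ∧ ∀ φ ∈ P.tests (W' z0), φ y = φ z0.1 := by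
        intro z hz
        apply exists_common
        apply hro u (W z) (W' z0)
        · rw [← hz]; exact g1 z
        · rw [← hz0.2]; exact g2 z0
        · rw [hn]; exact g5 z
      let Y : {z : K × K // P.Accepts z} → K × K := fun z =>
        if hz : v z = u then (hcom z hz).choose else 0
      have hY : ∀ z, v z = u → (∀ φ ∈ P.tests (W z), φ (Y z) = φ z.1) ∧
          ∀ φ ∈ P.tests (W' z0), φ (Y z) = φ z0.1 := by
        intro z hz
        simp only [Y, dif_pos hz]
        exact (hcom z hz).choose_spec
      have hwalk : ∀ z, v z = u → P.Walk P.s (W z ++ W' z0) P.t ∧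
          ∀ e ∈ W z ++ W' z0, P.q e (Y z) = P.b e := by
        intro z hz
        refine ⟨walk_append P _ _ _ _ _ (g1 z) (by rw [hz, ← hz0.2]; exact g2 z0), ?_⟩
        intro e he
        rw [List.mem_append] at he
        rcases he with he | he
        · exact usable_of_agree P (W z) (Y z) z.1 (hY z hz).1 (g3 z) e he
        · exact usable_of_agree P (W' z0) (Y z) z0.1 (hY z hz).2 (g4 z0) e he
      let T : Finset (K × K) :=
        (cubeSet K).filter (fun y => ∀ φ ∈ P.tests (W' z0), φ y = φ z0.1)
      have hmaps : ∀ z ∈ B, Y z ∈ T := by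
        intro z hz
        rw [hB, Finset.mem_filter] at hz
        simp only [T, Finset.mem_filter, mem_cubeSet]
        exact ⟨hacc _ ⟨_, (hwalk z hz.2).1, (hwalk z hz.2).2⟩, (hY z hz.2).2⟩
      have hone : ∀ (y : K × K) (w : List E),
          (((B.filter (fun z => Y z = y)).filter (fun z => W z = w)).card : ℝ) ≤
          2 * Real.sqrt (2 ^ m) := by
        intro y w
        rcases ((B.filter (fun z => Y z = y)).filter (fun z => W z = w)).eq_empty_or_nonempty
          with he | ⟨z1, hz1⟩
        · rw [he]; simp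
        · rw [Finset.mem_filter, Finset.mem_filter, hB, Finset.mem_filter] at hz1
          set D := (P.tests (W z1)).dualCoannihilator with hD
          have hDm : finrank (ZMod 2) D = m := by
            have := Subspace.finrank_add_finrank_dualCoannihilator_eq (P.tests (W z1))
            have h5 := g5 z1
            have h6 : finrank (ZMod 2) (P.tests (W z1)) + finrank (ZMod 2) D =
              finrank (ZMod 2) (K × K) := this
            omega
          have hsq := card_coset_sq D z1.1 m hDm
            (((B.filter (fun z => Y z = y)).filter (fun z => W z = w)).image (fun z => z.1)) (by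
              intro z hz
              rw [Finset.mem_image] at hz
              obtain ⟨z', hz', rfl⟩ := hz
              rw [Finset.mem_filter, Finset.mem_filter, hB, Finset.mem_filter] at hz'
              refine ⟨hacc _ z'.2, ?_⟩
              rw [Submodule.mem_dualCoannihilator]
              intro φ hφ
              have hW : W z' = W z1 := hz'.2.trans hz1.2.symm
              have e1 := (hY z1 hz1.1.1.2).1 φ hφ
              have e2 := (hY z' hz'.1.1.2).1 φ (by rw [hW]; exact hφ)
              rw [hz1.1.2] at e1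
              rw [hz'.1.2] at e2
              rw [map_sub, ← e1, ← e2, sub_self])
          rw [Finset.card_image_of_injective _ Subtype.val_injective] at hsq
          have h2 : (((B.filter (fun z => Y z = y)).filter (fun z => W z = w)).card : ℝ) ^ 2 ≤
              4 * 2 ^ m := by
            exact_mod_cast hsq
          apply le_of_sq_le_sq _ (by positivity)
          rw [mul_pow, Real.sq_sqrt (by positivity)]
          norm_num
          exact h2
      have hsmall : ∀ y ∈ T, ((B.filter (fun z => Y z = y)).card : ℝ) ≤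
          a * (2 * Real.sqrt (2 ^ m)) := by
        intro y _
        have hL : ((B.filter (fun z => Y z = y)).image W).card ≤ a := by
          have h1 : (((B.filter (fun z => Y z = y)).image W).image (fun w => w ++ W' z0)).card =
              ((B.filter (fun z => Y z = y)).image W).card := by
            apply Finset.card_image_of_injective
            intro w1 w2 h12
            exact List.append_cancel_right h12
          rw [← h1]
          apply hun y
          intro es hes
          rw [Finset.mem_image] at hes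
          obtain ⟨w, hw, rfl⟩ := hes
          rw [Finset.mem_image] at hw
          obtain ⟨z, hz, rfl⟩ := hw
          rw [Finset.mem_filter, hB, Finset.mem_filter] at hz
          have := hwalk z hz.1.2
          rw [hz.2] at this
          exact this
        have h2 := Finset.card_eq_sum_card_image W (B.filter (fun z => Y z = y))
        have h3 : ((B.filter (fun z => Y z = y)).card : ℝ) =
            ∑ w ∈ (B.filter (fun z => Y z = y)).image W,
              (((B.filter (fun z => Y z = y)).filter (fun z => W z = w)).card : ℝ) := by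
          exact_mod_cast h2
        rw [h3]
        refine (Finset.sum_le_sum (fun w _ => hone y w)).trans ?_
        rw [Finset.sum_const, nsmul_eq_mul]
        apply mul_le_mul_of_nonneg_right _ (by positivity)
        exact_mod_cast hL
      have hT : (T.card : ℝ) ≤ 4 * 2 ^ h / 2 ^ m + 2 * Real.sqrt (2 ^ h) := by
        have haff := card_affine (P.tests (W' z0)) z0.1
        rw [hK] at haff
        set f := finrank (ZMod 2) (P.tests (W' z0)) with hf
        have hfm : m ≤ f + 2 := g6 z0
        have h1 : (T.card : ℝ) * 2 ^ f ≤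
            (4 * 2 ^ h / 2 ^ m + 2 * Real.sqrt (2 ^ h)) * 2 ^ f := by
          refine haff.trans ?_
          push_cast
          have h4 : (2 : ℝ) ^ h ≤ 4 * 2 ^ h / 2 ^ m * 2 ^ f := by
            rw [div_mul_eq_mul_div, le_div_iff₀ (by positivity)]
            have : (2 : ℝ) ^ m ≤ 4 * 2 ^ f := by
              calc (2 : ℝ) ^ m ≤ 2 ^ (f + 2) := pow_le_pow_right₀ (by norm_num) hfm
                _ = 4 * 2 ^ f := by rw [pow_add]; ring
            nlinarith [pow_pos (show (0 : ℝ) < 2 by norm_num) h]
          have h5 : (2 : ℝ) ^ f * (2 * Real.sqrt (2 ^ h)) = 2 * Real.sqrt (2 ^ h) * 2 ^ f := by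
            ring
          rw [add_mul, h5]
          linarith
        exact le_of_mul_le_mul_right h1 (by positivity)
      have hsum : (B.card : ℝ) = ∑ y ∈ T, ((B.filter (fun z => Y z = y)).card : ℝ) := by
        have := Finset.card_eq_sum_card_fiberwise (f := Y) (s := B) (t := T) hmaps
        rw [this]; push_cast; rfl
      rw [hsum]
      refine (Finset.sum_le_sum hsmall).trans ?_
      rw [Finset.sum_const, nsmul_eq_mul]
      exact mul_le_mul_of_nonneg_right hT (by positivity)
  have htot : (A'.card : ℝ) = ∑ u : N, ((A'.filter (fun z => v z = u)).card : ℝ) := by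
    have := Finset.card_eq_sum_card_fiberwise (f := v) (s := A') (t := Finset.univ)
      (fun _ _ => Finset.mem_univ _)
    rw [this]; push_cast; rfl
  rw [hAA, htot]
  refine (Finset.sum_le_sum (fun u _ => hfib u)).trans ?_
  rw [Finset.sum_const, Finset.card_univ, nsmul_eq_mul]

theorem main_bound [Fintype N] (P : NLBP (K × K) N E) (h m : ℕ) (hK : Fintype.card K = 2 ^ h)
    (hm : 2 * m ≤ h)
    (hacc : ∀ z : K × K, P.Accepts z → z.2 = z.1 ^ 3)
    (a : ℕ) (hun : ∀ (z : K × K) (L : Finset (List E)),
      (∀ es ∈ L, P.Walk P.s es P.t ∧ ∀ e ∈ es, P.q e z = P.b e) → L.card ≤ a)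
    (hro : ∀ v es es', P.Walk P.s es v → P.Walk v es' P.t →
      finrank (ZMod 2) (P.tests es) + m = finrank (ZMod 2) (K × K) →
      P.tests es ⊓ P.tests es' = ⊥) :
    {z : K × K | P.Accepts z}.ncard ^ 2 * 2 ^ m ≤
      144 * (2 ^ h * (a * Fintype.card N)) ^ 2 := by
  classical
  haveI : FiniteDimensional (ZMod 2) K := Module.Finite.of_finite
  have hfK : finrank (ZMod 2) K = h := by
    have h1 := Module.card_eq_pow_finrank (K := ZMod 2) (V := K)
    rw [ZMod.card, hK] at h1
    exact (Nat.pow_right_injective (le_refl 2) h1).symm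
  have hn : finrank (ZMod 2) (K × K) = 2 * h := by
    rw [Module.finrank_prod, hfK]; ring
  let B : Finset (K × K) := Finset.univ.filter (fun z => P.Accepts z)
  have hB : {z : K × K | P.Accepts z}.ncard = B.card := by
    rw [Set.ncard_eq_toFinset_card']
    congr 1
    ext z
    simp [B]
  rw [hB]
  by_cases hm2 : 2 ≤ m
  · have hc := count_acc P h m hK hn hm2 (by omega) hacc a hun hro B
      (fun z hz => by simpa [B] using hz)
    set A : ℝ := (a : ℝ) * (Fintype.card N : ℝ) with hA
    have hA0 : 0 ≤ A := by positivity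
    have hsq : Real.sqrt (2 ^ h) ≤ 2 ^ h / 2 ^ m := by
      rw [Real.sqrt_le_left (by positivity), div_pow, le_div_iff₀ (by positivity)]
      have e1 : ((2 : ℝ) ^ m) ^ 2 = 2 ^ (2 * m) := by rw [← pow_mul, mul_comm]
      rw [e1, sq]
      apply mul_le_mul_of_nonneg_left _ (by positivity)
      exact pow_le_pow_right₀ (by norm_num) hm
    set r := Real.sqrt (2 ^ m) with hr
    have hr2 : r * r = 2 ^ m := Real.mul_self_sqrt (by positivity)
    have hr0 : 0 < r := Real.sqrt_pos.mpr (by positivity)
    have h1 : (B.card : ℝ) ≤ A * ((6 * (2 ^ h / 2 ^ m)) * (2 * r)) := by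
      refine hc.trans ?_
      have e0 : (Fintype.card N : ℝ) * ((4 * 2 ^ h / 2 ^ m + 2 * Real.sqrt (2 ^ h)) *
          (a * (2 * r))) = A * ((4 * 2 ^ h / 2 ^ m + 2 * Real.sqrt (2 ^ h)) * (2 * r)) := by
        rw [hA]; ring
      rw [e0]
      apply mul_le_mul_of_nonneg_left _ hA0
      apply mul_le_mul_of_nonneg_right _ (by positivity)
      have : 4 * (2 : ℝ) ^ h / 2 ^ m = 4 * (2 ^ h / 2 ^ m) := by ring
      linarith
    have h2 : (B.card : ℝ) * (r * r) ≤ 12 * (2 ^ h * A) * r := by
      rw [hr2]
      have h4 := mul_le_mul_of_nonneg_right h1 (show (0 : ℝ) ≤ 2 ^ m by positivity)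
      refine h4.trans (le_of_eq ?_)
      field_simp
      ring
    have h5 : (B.card : ℝ) * r ≤ 12 * (2 ^ h * A) := by
      rw [← mul_assoc] at h2
      exact le_of_mul_le_mul_right h2 hr0
    have h6 : (B.card : ℝ) ^ 2 * 2 ^ m ≤ 144 * (2 ^ h * A) ^ 2 := by
      rw [← hr2]
      have h60 : 0 ≤ (B.card : ℝ) * r := by positivity
      have h7 := mul_self_le_mul_self h60 h5
      nlinarith
    have h7 : ((B.card ^ 2 * 2 ^ m : ℕ) : ℝ) ≤
        ((144 * (2 ^ h * (a * Fintype.card N)) ^ 2 : ℕ) : ℝ) := by
      push_cast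
      rw [hA] at h6
      exact h6
    exact_mod_cast h7
  · have hBS : B ⊆ cubeSet K := by
      intro z hz
      rw [mem_cubeSet]
      exact hacc z (by simpa [B] using hz)
    have h1 : B.card ≤ 2 ^ h := by
      have := Finset.card_le_card hBS
      rwa [card_cubeSet, hK] at this
    have h2 : 2 ^ m ≤ 2 := by
      have : m ≤ 1 := by omega
      calc 2 ^ m ≤ 2 ^ 1 := Nat.pow_le_pow_right (by norm_num) this
        _ = 2 := by norm_num
    rcases B.eq_empty_or_nonempty with hemp | ⟨z, hz⟩
    · rw [hemp]; simp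
    · have h3 : 1 ≤ Fintype.card N := Fintype.card_pos_iff.mpr ⟨P.s⟩
      have ha : 1 ≤ a := by
        have hz' : P.Accepts z := by simpa [B] using hz
        obtain ⟨es, g1, g2⟩ := hz'
        have := hun z {es} (by
          intro es' hes'
          rw [Finset.mem_singleton] at hes'
          rw [hes']
          exact ⟨g1, g2⟩)
        simpa using this
      have h33 : 1 ≤ a * Fintype.card N := Nat.mul_pos ha h3
      have h4 : B.card ^ 2 ≤ (2 ^ h) ^ 2 := Nat.pow_le_pow_left h1 2
      have h5 : (2 ^ h) ^ 2 ≤ (2 ^ h * (a * Fintype.card N)) ^ 2 :=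
        Nat.pow_le_pow_left (Nat.le_mul_of_pos_right _ h33) 2
      calc B.card ^ 2 * 2 ^ m ≤ (2 ^ h * (a * Fintype.card N)) ^ 2 * 2 :=
            Nat.mul_le_mul (h4.trans h5) h2
        _ ≤ 144 * (2 ^ h * (a * Fintype.card N)) ^ 2 := by
            rw [mul_comm]; exact Nat.mul_le_mul_right _ (by norm_num)

end

end Pool.Agent.H657R3.UD
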